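import Pool.Agent.Helper111.EN.Main
import Pool.Agent.Helper28.LCN.Base

/-!
# Uniform exponent of the `(c+1)`-st lower central factor of `n`-Engel groups

`c` is a bound for the class of torsion-free locally nilpotent `n`-Engel groups.
-/

set_option autoImplicit false

namespace Pool.Agent.H798R2.EP

open Subgroup Pool.Agent.Helper111.EN
open scoped commutatorElement

/-- the lower central series of a group -/
abbrev lcs (G : Type) [Group G] (c : ℕ) : Subgroup G := (⊤ : Subgroup G).lowerCentralSeries c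

/-- torsion-free locally nilpotent `n`-Engel groups have class at most `c` -/
def TFc (n c : ℕ) : Prop := ∀ (G : Type) [Group G], IsEngel n G →
  Pool.Agent.Helper28.LCN.LocNilp G → Pool.Agent.Helper28.LCN.TorsionFree G → lcs G c = ⊥

theorem map_lcs {G K : Type} [Group G] [Group K] (f : G →* K) (hf : Function.Surjective f)
    (c : ℕ) : (lcs G c).map f = lcs K c := by
  rw [map_lowerCentralSeries, Subgroup.map_top_of_surjective f hf]

theorem map_lcs_le {G K : Type} [Group G] [Group K] (f : G →* K)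
    (c : ℕ) {x : G} (hx : x ∈ lcs G c) : f x ∈ lcs K c := by
  have h1 : f x ∈ (lcs G c).map f := ⟨x, hx, rfl⟩
  rw [map_lowerCentralSeries] at h1
  exact lowerCentralSeries_mono c le_top h1

theorem lcs_le_tor {n c : ℕ} (h : TFc n c) {G : Type} [Group G] (hE : IsEngel n G)
    (hl : Pool.Agent.Helper28.LCN.LocNilp G) {x : G} (hx : x ∈ lcs G c) :
    ∃ k : ℕ, 0 < k ∧ x ^ k = 1 := by
  have := Pool.Agent.Helper28.LCN.tor_normal hl
  let π := QuotientGroup.mk' (Pool.Agent.Helper28.LCN.tor hl)
  have hπ : Function.Surjective π := QuotientGroup.mk'_surjective _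
  have h1 := h (G ⧸ Pool.Agent.Helper28.LCN.tor hl) (hE.of_surjective π hπ n)
    (hl.of_surjective π hπ) (Pool.Agent.Helper28.LCN.tf_quot hl)
  have h2 := map_lcs_le π c hx
  rw [h1, Subgroup.mem_bot] at h2
  exact (QuotientGroup.eq_one_iff x).1 h2

theorem exists_m_IC {n c : ℕ} (h : TFc n c) : ∃ m : ℕ, 0 < m ∧ ∀ (G : Type) [Group G],
    IsEngel n G → lcs G (c + 1) = ⊥ → ∀ f : ℕ → G, (IC c f) ^ m = 1 := by
  by_contra hcon
  push Not at hcon
  choose G iG hE hlc f hf using fun k : ℕ => hcon (k + 1).factorial (Nat.factorial_pos _)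
  let P := ∀ k, G k
  have hEP : IsEngel n P := by
    intro x y
    funext k
    have := eng_map (Pi.evalMonoidHom G k) n x y
    have h2 : (eng n x y) k = eng n (x k) (y k) := this
    rw [h2, hE k]
    rfl
  have hIC : ∀ (d : ℕ) (F : ℕ → P) (k : ℕ), (IC d F) k = IC d (fun i => F i k) := by
    intro d F k
    exact IC_map (Pi.evalMonoidHom G k) d F
  have hlcP : lcs P (c + 1) = ⊥ := by
    rw [← law_iff]
    intro F
    funext k
    rw [hIC, (law_iff (c + 1)).2 (hlc k)]
    rfl
  have hnil : Group.IsNilpotent P := Subgroup.nilpotent_iff_lowerCentralSeries.2 ⟨c + 1, hlcP⟩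
  have hl : Pool.Agent.Helper28.LCN.LocNilp P := fun s => inferInstance
  let F : ℕ → P := fun i k => f k i
  obtain ⟨k, hk, hk1⟩ := lcs_le_tor h hEP hl (IC_mem_lcs c F)
  obtain ⟨j, rfl⟩ : ∃ j, k = j + 1 := ⟨k - 1, by omega⟩
  have h1 : (IC c (f j)) ^ (j + 1) = 1 := by
    have := congrFun hk1 j
    rw [Pi.pow_apply, hIC] at this
    exact this
  apply hf j
  have hd : (j + 1) ∣ (j + 1).factorial := Nat.dvd_factorial (by omega) le_rfl
  obtain ⟨t, ht⟩ := hd
  rw [ht, pow_mul, h1, one_pow]

/-- the uniform exponent -/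
theorem exists_m {n c : ℕ} (h : TFc n c) : ∃ m : ℕ, 0 < m ∧ ∀ (G : Type) [Group G],
    IsEngel n G → ∀ z ∈ lcs G c, z ^ m ∈ lcs G (c + 1) := by
  obtain ⟨m, hm, H⟩ := exists_m_IC h
  refine ⟨m, hm, ?_⟩
  have key : ∀ (G : Type) [Group G], IsEngel n G → lcs G (c + 1) = ⊥ → ∀ z ∈ lcs G c, z ^ m = 1 := by
    intro G _ hE hlc z hz
    have hcen : ∀ w ∈ lcs G c, w ∈ center G := by
      intro w hw
      rw [mem_center_iff]
      intro g
      have h1 : ⁅w, g⁆ ∈ lcs G (c + 1) := by
        show ⁅w, g⁆ ∈ (⊤ : Subgroup G).lowerCentralSeries (c + 1)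
        rw [Subgroup.lowerCentralSeries_succ]
        exact commutator_mem_commutator hw (mem_top g)
      rw [hlc, Subgroup.mem_bot, commutatorElement_eq_one_iff_mul_comm] at h1
      exact h1.symm
    let W : Subgroup G :=
      { carrier := {w | w ∈ center G ∧ w ^ m = 1}
        one_mem' := ⟨one_mem _, one_pow _⟩
        mul_mem' := by
          rintro a b ⟨ha, ha1⟩ ⟨hb, hb1⟩
          refine ⟨mul_mem ha hb, ?_⟩
          have hc : Commute a b := (mem_center_iff.1 hb a)
          rw [hc.mul_pow, ha1, hb1, one_mul]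
        inv_mem' := by
          rintro a ⟨ha, ha1⟩
          exact ⟨inv_mem ha, by rw [inv_pow, ha1, inv_one]⟩ }
    have hWn : W.Normal := by
      refine ⟨fun w hw g => ?_⟩
      have : g * w * g⁻¹ = w := by
        rw [mem_center_iff.1 hw.1 g, mul_assoc, mul_inv_cancel, mul_one]
      rw [this]
      exact hw
    have h1 : lcs (G ⧸ W) c = ⊥ := by
      rw [← law_iff]
      intro f
      choose g hg using fun i => QuotientGroup.mk'_surjective W (f i)
      have : f = fun i => QuotientGroup.mk' W (g i) := by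
        funext i; exact (hg i).symm
      rw [this, ← IC_map, Pool.Agent.Helper111.EN.mk_eq_one_iff]
      exact ⟨hcen _ (IC_mem_lcs c g), H G hE hlc g⟩
    have h2 := map_lcs_le (QuotientGroup.mk' W) c hz
    rw [h1, Subgroup.mem_bot, Pool.Agent.Helper111.EN.mk_eq_one_iff] at h2
    exact h2.2
  intro G _ hE z hz
  let π := QuotientGroup.mk' (lcs G (c + 1))
  have hπ : Function.Surjective π := QuotientGroup.mk'_surjective _
  have h1 : lcs (G ⧸ lcs G (c + 1)) (c + 1) = ⊥ := by
    rw [← map_lcs π hπ]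
    exact QuotientGroup.map_mk'_self _
  have h2 := key _ (hE.of_surjective π hπ n) h1 (π z) (map_lcs_le π c hz)
  rw [← map_pow] at h2
  exact (Pool.Agent.Helper111.EN.mk_eq_one_iff _ _).1 h2

end Pool.Agent.H798R2.EP
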