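import Pool.Agent.H798R2.EP.A

/-!
# Large `q`-powers centralize small normal sections
-/

set_option autoImplicit false

namespace Pool.Agent.H798R2.EP

open Subgroup Pool.Agent.Helper111.EN
open scoped commutatorElement

/-- divisibility of the binomial coefficients of a large prime power -/
theorem choose_dvd (q : ℕ) (hq : q.Prime) (κ n : ℕ) :
    ∀ i, 0 < i → i < n → q ^ κ ∣ (q ^ (κ + n)).choose i := by
  intro i hi hin
  have h1 : (q ^ (κ + n)).choose i * i = q ^ (κ + n) * (q ^ (κ + n) - 1).choose (i - 1) := by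
    obtain ⟨j, rfl⟩ : ∃ j, i = j + 1 := ⟨i - 1, by omega⟩
    obtain ⟨N, hN⟩ : ∃ N, q ^ (κ + n) = N + 1 :=
      ⟨q ^ (κ + n) - 1, by have := pow_pos hq.pos (κ + n); omega⟩
    rw [hN, Nat.add_sub_cancel, Nat.add_sub_cancel]
    exact (Nat.add_one_mul_choose_eq N j).symm
  obtain ⟨v, j, hj, hij⟩ := Nat.exists_eq_pow_mul_and_not_dvd (n := i) hi.ne' q hq.ne_one
  have hv : v < n := by
    have h2 : q ^ v ≤ i := Nat.le_of_dvd hi ⟨j, hij⟩
    exact (Nat.lt_pow_self hq.one_lt).trans_le h2 |>.trans hin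
  have h3 : q ^ (κ + n - v) * q ^ v = q ^ (κ + n) := by
    rw [← pow_add]; congr 1; omega
  have h4 : q ^ (κ + n - v) ∣ (q ^ (κ + n)).choose i * j := by
    have h5 : (q ^ (κ + n)).choose i * j * q ^ v =
        (q ^ (κ + n - v) * (q ^ (κ + n) - 1).choose (i - 1)) * q ^ v := by
      calc (q ^ (κ + n)).choose i * j * q ^ v = (q ^ (κ + n)).choose i * (q ^ v * j) := by ring
        _ = (q ^ (κ + n)).choose i * i := by rw [← hij]
        _ = q ^ (κ + n) * (q ^ (κ + n) - 1).choose (i - 1) := h1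
        _ = _ := by rw [← h3]; ring
    exact ⟨_, Nat.eq_of_mul_eq_mul_right (pow_pos hq.pos v) h5⟩
  have h5 : Nat.Coprime (q ^ (κ + n - v)) j :=
    Nat.Coprime.pow_left _ ((Nat.Prime.coprime_iff_not_dvd hq).2 hj)
  exact (pow_dvd_pow q (by omega)).trans (h5.dvd_of_dvd_mul_right h4)

section ab
variable {G : Type} [Group G]

/-- `x ^ N` centralizes an abelian normal subgroup of exponent `e` if `e ∣ binom(N,i)`, `0<i<n` -/
theorem central_pow {n e N : ℕ} (hE : IsEngel n G) (hn : 0 < n)
    (hN : ∀ i, 0 < i → i < n → e ∣ N.choose i)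
    (B : Subgroup G) [hB : B.Normal] (hc : ∀ a ∈ B, ∀ b ∈ B, a * b = b * a)
    (he : ∀ b ∈ B, b ^ e = 1) (x : G) : ∀ b ∈ B, x ^ N * b = b * x ^ N := by
  let _ : CommGroup B :=
    { (inferInstance : Group B) with
      mul_comm := fun a b => Subtype.ext (hc a.1 a.2 b.1 b.2) }
  let A := Additive B
  -- conjugation
  let cj : B →* B :=
    { toFun := fun b => ⟨x⁻¹ * b.1 * x, by
        have := hB.conj_mem b.1 b.2 x⁻¹
        rwa [inv_inv] at this⟩
      map_one' := by apply Subtype.ext; simp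
      map_mul' := fun a b => by apply Subtype.ext; simp [mul_assoc] }
  let X : AddMonoid.End A := MonoidHom.toAdditive cj
  have hX : ∀ b : B, X (Additive.ofMul b) = Additive.ofMul (cj b) := fun b => rfl
  -- iterated commutators
  have h1 : ∀ k (b : B), ((Additive.toMul (((X - 1) ^ k) (Additive.ofMul b)) : B) : G) = eng k b.1 x := by
    intro k
    induction k with
    | zero => intro b; simp [eng]
    | succ k ih =>
      intro b
      rw [pow_succ']
      have h2 := ih b
      obtain ⟨w, hw⟩ : ∃ w : B, ((X - 1) ^ k) (Additive.ofMul b) = Additive.ofMul w := ⟨_, rfl⟩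
      have h3 : ((X - 1) * (X - 1) ^ k) (Additive.ofMul b) = (X - 1) (((X - 1) ^ k) (Additive.ofMul b)) := rfl
      rw [h3, hw]
      have h4 : (X - 1) (Additive.ofMul w) = Additive.ofMul (cj w * w⁻¹) := by
        have h40 : (X - 1) (Additive.ofMul w) = X (Additive.ofMul w) - Additive.ofMul w := rfl
        rw [h40, hX]
        rw [← div_eq_mul_inv]
        rfl
      rw [h4]
      rw [hw] at h2
      have h5 : (w : G) = eng k b.1 x := h2
      simp only [eng, cm]
      rw [← h5]
      have h6 : ((cj w * w⁻¹ : B) : G) = x⁻¹ * w.1 * x * (w.1)⁻¹ := rfl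
      have h7 : cj w * w⁻¹ = w⁻¹ * cj w := mul_comm _ _
      have h8 : ((w⁻¹ * cj w : B) : G) = (w.1)⁻¹ * (x⁻¹ * w.1 * x) := rfl
      show ((cj w * w⁻¹ : B) : G) = _
      rw [h7, h8]
      group
  have h2 : (X - 1) ^ n = 0 := by
    refine AddMonoidHom.ext fun b => ?_
    have h3 := h1 n (Additive.toMul b)
    rw [hE] at h3
    apply Additive.toMul.injective
    apply Subtype.ext
    exact h3
  have h3 : ∀ (b : A), e • b = 0 := by
    intro b
    apply Additive.toMul.injective
    apply Subtype.ext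
    have := he (Additive.toMul b).1 (Additive.toMul b).2
    exact this
  have h4 : X ^ N = 1 := by
    have h5 : X = (X - 1) + 1 := by abel
    have h6 : (X - 1 + 1) ^ N = ∑ i ∈ Finset.range (N + 1), (X - 1) ^ i * 1 ^ (N - i) * (N.choose i) :=
      (Commute.one_right (X - 1)).add_pow N
    rw [h5, h6]
    rw [Finset.sum_eq_single 0]
    · simp
    · intro i _ hi
      by_cases hin : i < n
      · obtain ⟨t, ht⟩ := hN i (Nat.pos_of_ne_zero hi) hin
        rw [ht]
        refine AddMonoidHom.ext fun b => ?_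
        have h7 : ((X - 1) ^ i * 1 ^ (N - i) * ((e * t : ℕ) : AddMonoid.End A)) b =
            ((X - 1) ^ i) (((e * t : ℕ) : AddMonoid.End A) b) := by
          rw [one_pow, mul_one]; rfl
        have h8 : ((e * t : ℕ) : AddMonoid.End A) b = (e * t) • b := by
          rw [AddMonoid.End.natCast_apply]
        have h9 : (e * t) • (b : A) = 0 := by
          rw [mul_comm, mul_smul, h3, smul_zero]
        have h10 : ((X - 1) ^ i * 1 ^ (N - i) * ((e * t : ℕ) : AddMonoid.End A)) b = 0 := by
          rw [h7, h8, h9, map_zero]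
        exact h10
      · obtain ⟨t, rfl⟩ := Nat.exists_eq_add_of_le (not_lt.1 hin)
        rw [pow_add, h2]
        simp
    · intro h; simp at h
  have h5 : ∀ k (b : B), (Additive.toMul ((X ^ k) (Additive.ofMul b)) : B).1 = (x ^ k)⁻¹ * b.1 * x ^ k := by
    intro k
    induction k with
    | zero => intro b; simp
    | succ k ih =>
      intro b
      rw [pow_succ']
      have h6 : (X * X ^ k) (Additive.ofMul b) = X ((X ^ k) (Additive.ofMul b)) := rfl
      obtain ⟨w, hw⟩ : ∃ w : B, (X ^ k) (Additive.ofMul b) = Additive.ofMul w := ⟨_, rfl⟩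
      have h7 := ih b
      rw [hw] at h7
      have h7' : w.1 = (x ^ k)⁻¹ * b.1 * x ^ k := h7
      rw [h6, hw, hX]
      show x⁻¹ * w.1 * x = _
      rw [h7', pow_succ]
      group
  intro b hb
  have h6 := h5 N ⟨b, hb⟩
  rw [h4] at h6
  have h7 : b = (x ^ N)⁻¹ * b * x ^ N := h6
  calc x ^ N * b = x ^ N * ((x ^ N)⁻¹ * b * x ^ N) := by rw [← h7]
    _ = b * x ^ N := by group

end ab

end Pool.Agent.H798R2.EP
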