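import Pool.Agent.H798R2.EP.B

/-!
# Theorem P: the subgroup generated by large `q`-powers of a nilpotent `n`-Engel `q`-group has
bounded class
-/

set_option autoImplicit false

namespace Pool.Agent.H798R2.EP

open Subgroup Pool.Agent.Helper111.EN
open scoped commutatorElement

variable {G : Type} [Group G]

/-- the subgroup generated by the `k`-th powers of elements of `N` -/
def Pw (N : Subgroup G) (k : ℕ) : Subgroup G := closure {y | ∃ x ∈ N, x ^ k = y}

theorem pow_mem_Pw {N : Subgroup G} {k : ℕ} {x : G} (hx : x ∈ N) : x ^ k ∈ Pw N k :=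
  subset_closure ⟨x, hx, rfl⟩

theorem Pw_le {N M : Subgroup G} {k : ℕ} (h : ∀ x ∈ N, x ^ k ∈ M) : Pw N k ≤ M := by
  rw [Pw, closure_le]
  rintro _ ⟨x, hx, rfl⟩
  exact h x hx

theorem normal_closure_of {S : Set G} (h : ∀ s ∈ S, ∀ g : G, g * s * g⁻¹ ∈ closure S) :
    (closure S).Normal := by
  refine ⟨fun x hx g => ?_⟩
  induction hx using closure_induction with
  | mem x hx => exact h x hx g
  | one => simp
  | mul x y _ _ hx hy =>
    have : g * (x * y) * g⁻¹ = (g * x * g⁻¹) * (g * y * g⁻¹) := by group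
    rw [this]
    exact mul_mem hx hy
  | inv x _ hx =>
    have : g * x⁻¹ * g⁻¹ = (g * x * g⁻¹)⁻¹ := by group
    rw [this]
    exact inv_mem hx

instance Pw_normal (N : Subgroup G) [hN : N.Normal] (k : ℕ) : (Pw N k).Normal := by
  refine normal_closure_of ?_
  rintro _ ⟨x, hx, rfl⟩ g
  have : g * x ^ k * g⁻¹ = (g * x * g⁻¹) ^ k := by rw [conj_pow]
  rw [this]
  exact subset_closure ⟨_, hN.conj_mem x hx g, rfl⟩

theorem map_Pw {K : Type} [Group K] (f : G →* K) (N : Subgroup G) (k : ℕ) :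
    (Pw N k).map f = Pw (N.map f) k := by
  rw [Pw, Pw, MonoidHom.map_closure]
  congr 1
  ext y
  constructor
  · rintro ⟨_, ⟨x, hx, rfl⟩, rfl⟩
    exact ⟨f x, ⟨x, hx, rfl⟩, by rw [map_pow]⟩
  · rintro ⟨_, ⟨x, hx, rfl⟩, rfl⟩
    exact ⟨x ^ k, ⟨x, hx, rfl⟩, by rw [map_pow]⟩

/-- commuting with a generating set -/
theorem commute_closure {S : Set G} {b : G} (h : ∀ s ∈ S, s * b = b * s) {x : G}
    (hx : x ∈ closure S) : x * b = b * x := by
  have hle : closure S ≤ Subgroup.centralizer {b} := by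
    rw [closure_le]
    intro s hs
    rw [SetLike.mem_coe, mem_centralizer_singleton_iff]
    exact h s hs
  exact mem_centralizer_singleton_iff.1 (hle hx)

/-- Key lemma: a normal subgroup `N` of exponent `e` inside `H = Pw ⊤ K` is centralized by `H`
and is abelian. -/
theorem key {n e K : ℕ} [hnil : Group.IsNilpotent G] (hE : IsEngel n G) (hn : 0 < n)
    (hK : ∀ i, 0 < i → i < n → e ∣ K.choose i)
    (N : Subgroup G) [hN : N.Normal] (hNH : N ≤ Pw ⊤ K) (he : ∀ b ∈ N, b ^ e = 1) :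
    ∀ h ∈ Pw (⊤ : Subgroup G) K, ∀ x ∈ N, h * x = x * h := by
  -- the statement for abelian normal subgroups of `N`
  have hab : ∀ B : Subgroup G, B.Normal → B ≤ N → (∀ a ∈ B, ∀ b ∈ B, a * b = b * a) →
      ∀ h ∈ Pw (⊤ : Subgroup G) K, ∀ x ∈ B, h * x = x * h := by
    intro B hB hBN hc h hh x hx
    refine commute_closure ?_ hh
    rintro _ ⟨y, -, rfl⟩
    exact central_pow hE hn hK B hc (fun b hb => he b (hBN hb)) y x hx
  -- Zorn
  obtain ⟨B, -, hB⟩ := zorn_le_nonempty₀
    {L : Subgroup G | L.Normal ∧ L ≤ N ∧ ∀ a ∈ L, ∀ b ∈ L, a * b = b * a} (by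
    intro c hc hch y hy
    have hdir : DirectedOn (· ≤ ·) c := hch.directedOn
    have hmem : ∀ x, x ∈ sSup c ↔ ∃ s ∈ c, x ∈ s := fun x =>
      Subgroup.mem_sSup_of_directedOn ⟨y, hy⟩ hdir
    refine ⟨sSup c, ⟨⟨?_⟩, ?_, ?_⟩, fun a ha => le_sSup ha⟩
    · intro n hn g
      obtain ⟨s, hs, hns⟩ := (hmem n).1 hn
      exact (hmem _).2 ⟨s, hs, (hc hs).1.conj_mem n hns g⟩
    · intro z hz
      obtain ⟨s, hs, hzs⟩ := (hmem z).1 hz
      exact (hc hs).2.1 hzs
    · intro a ha b hb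
      obtain ⟨s, hs, has⟩ := (hmem a).1 ha
      obtain ⟨t, ht, hbt⟩ := (hmem b).1 hb
      rcases hch.total hs ht with h | h
      · exact (hc ht).2.2 a (h has) b hbt
      · exact (hc hs).2.2 a has b (h hbt)) ⊥
    ⟨inferInstance, bot_le, by
      intro a ha b hb
      rw [Subgroup.mem_bot] at ha hb
      rw [ha, hb]⟩
  obtain ⟨hBn, hBN, hBc⟩ := hB.prop
  have hBH := hab B hBn hBN hBc
  by_cases hNB : N ≤ B
  · intro h hh x hx
    exact hBH h hh x (hNB hx)
  · exfalso
    -- an element of `N \ B` central modulo `B`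
    obtain ⟨l, hlN, hlB, hl⟩ : ∃ l ∈ N, l ∉ B ∧ ∀ g : G, ⁅l, g⁆ ∈ B := by
      by_contra hcon
      push Not at hcon
      -- iterate
      have h1 : ∀ k : ℕ, ∃ l ∈ N, l ∉ B ∧ l ∈ lcs G k := by
        intro k
        induction k with
        | zero =>
          obtain ⟨l, hl, hlB⟩ := Set.not_subset.1 hNB
          exact ⟨l, hl, hlB, mem_top l⟩
        | succ k ih =>
          obtain ⟨l, hl, hlB, hlk⟩ := ih
          obtain ⟨g, hg⟩ := hcon l hl hlB
          refine ⟨⁅l, g⁆, ?_, hg, ?_⟩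
          · have h2 : ⁅l, g⁆ = l * (g * l⁻¹ * g⁻¹) := by rw [commutatorElement_def]; group
            rw [h2]
            exact mul_mem hl (hN.conj_mem _ (inv_mem hl) g)
          · show ⁅l, g⁆ ∈ (⊤ : Subgroup G).lowerCentralSeries (k + 1)
            rw [Subgroup.lowerCentralSeries_succ]
            exact commutator_mem_commutator hlk (mem_top g)
      obtain ⟨k, hk⟩ := Subgroup.nilpotent_iff_lowerCentralSeries.1 hnil
      obtain ⟨l, _, hlB, hlk⟩ := h1 k
      have hlk' : l ∈ (⊤ : Subgroup G).lowerCentralSeries k := hlk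
      rw [hk, Subgroup.mem_bot] at hlk'
      exact hlB (hlk' ▸ one_mem B)
    have hLn : (closure ((B : Set G) ∪ {l})).Normal := by
      refine normal_closure_of ?_
      rintro s (hs | hs) g
      · exact subset_closure (Or.inl (hBn.conj_mem s hs g))
      · rw [Set.mem_singleton_iff] at hs
        subst hs
        have h2 : g * s * g⁻¹ = ⁅s, g⁆⁻¹ * s := by rw [commutatorElement_def]; group
        rw [h2]
        exact mul_mem (inv_mem (subset_closure (Or.inl (hl g)))) (subset_closure (Or.inr rfl))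
    have hlH : l ∈ Pw (⊤ : Subgroup G) K := hNH hlN
    have hlb : ∀ b ∈ B, l * b = b * l := fun b hb => hBH l hlH b hb
    have hLc : ∀ a ∈ closure ((B : Set G) ∪ {l}), ∀ b ∈ closure ((B : Set G) ∪ {l}), a * b = b * a := by
      have h3 : ∀ s ∈ ((B : Set G) ∪ {l}), ∀ t ∈ ((B : Set G) ∪ {l}), s * t = t * s := by
        rintro s (hs | hs) t (ht | ht)
        · exact hBc s hs t ht
        · rw [Set.mem_singleton_iff] at ht
          subst ht
          exact (hlb s hs).symm
        · rw [Set.mem_singleton_iff] at hs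
          subst hs
          exact hlb t ht
        · rw [Set.mem_singleton_iff] at hs ht
          rw [hs, ht]
      intro a ha b hb
      refine commute_closure (fun s hs => ?_) ha
      exact (commute_closure (fun t ht => h3 t ht s hs) hb).symm
    have hLN : closure ((B : Set G) ∪ {l}) ≤ N := by
      rw [closure_le]
      rintro s (hs | hs)
      · exact hBN hs
      · rw [Set.mem_singleton_iff] at hs
        subst hs
        exact hlN
    have h4 := hB.le_of_ge ⟨hLn, hLN, hLc⟩ (fun b hb => subset_closure (Or.inl hb))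
    exact hlB (h4 (subset_closure (Or.inr rfl)))

/-- For every normal `N ≤ H = Pw ⊤ K`: `[N, H] ≤ N ^ e`. -/
theorem key2 {n e K : ℕ} [hnil : Group.IsNilpotent G] (hE : IsEngel n G) (hn : 0 < n)
    (hK : ∀ i, 0 < i → i < n → e ∣ K.choose i)
    (N : Subgroup G) [hN : N.Normal] (hNH : N ≤ Pw ⊤ K) :
    ⁅N, Pw (⊤ : Subgroup G) K⁆ ≤ Pw N e := by
  rw [commutator_le]
  intro x hx h hh
  let π := QuotientGroup.mk' (Pw N e)
  have hπ : Function.Surjective π := QuotientGroup.mk'_surjective _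
  have hN' : (N.map π).Normal := hN.map π hπ
  have htop : (Pw (⊤ : Subgroup G) K).map π = Pw ⊤ K := by
    rw [map_Pw, Subgroup.map_top_of_surjective π hπ]
  have h1 := key (G := G ⧸ Pw N e) (hE.of_surjective π hπ n) hn hK (N.map π) (by
    rw [← htop]; exact Subgroup.map_mono hNH) (by
    rintro _ ⟨b, hb, rfl⟩
    rw [← map_pow]
    exact (mk_eq_one_iff _ _).2 (pow_mem_Pw hb)) (π h) (by rw [← htop]; exact ⟨h, hh, rfl⟩)
    (π x) ⟨x, hx, rfl⟩
  rw [← mk_eq_one_iff (Pw N e)]
  show π ⁅x, h⁆ = 1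
  rw [map_commutatorElement, commutatorElement_eq_one_iff_mul_comm]
  exact h1.symm

/-- a nilpotent group of exponent `q ^ b` generated by its `q`-th powers is trivial -/
theorem eq_bot_of_Pw (q b : ℕ) [hnil : Group.IsNilpotent G] (Y : Subgroup G) (hq : ∀ y ∈ Y, y ^ q ^ b = 1)
    (hY : Y ≤ Pw Y q) : Y = ⊥ := by
  -- `Y ≤ [Y, Y]`
  have h1 : Y ≤ ⁅Y, Y⁆ := by
    have hYY : ⁅Y, Y⁆ ≤ Y := commutator_le.2 fun a ha b hb => by
      rw [commutatorElement_def]
      exact mul_mem (mul_mem (mul_mem ha hb) (inv_mem ha)) (inv_mem hb)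
    -- every element of `Y` is a `q`-th power modulo `[Y,Y]`
    let A := Abelianization Y
    have hpow : ∀ a : A, ∃ c : A, c ^ q = a := by
      intro a
      obtain ⟨⟨y, hy⟩, rfl⟩ := QuotientGroup.mk'_surjective _ a
      have h2 : ∀ y ∈ Pw Y q, ∃ hy : y ∈ Y, ∃ c : A, c ^ q = Abelianization.of (⟨y, hy⟩ : Y) := by
        intro y hy
        induction hy using closure_induction with
        | mem y hy =>
          obtain ⟨x, hx, rfl⟩ := hy
          exact ⟨pow_mem hx q, Abelianization.of (⟨x, hx⟩ : Y), by rw [← map_pow]; rfl⟩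
        | one => exact ⟨one_mem Y, 1, by rw [one_pow]; exact (map_one _).symm⟩
        | mul x y _ _ hx hy =>
          obtain ⟨hx1, c, hc⟩ := hx
          obtain ⟨hy1, d, hd⟩ := hy
          refine ⟨mul_mem hx1 hy1, c * d, ?_⟩
          rw [mul_pow, hc, hd, ← map_mul]
          rfl
        | inv x _ hx =>
          obtain ⟨hx1, c, hc⟩ := hx
          refine ⟨inv_mem hx1, c⁻¹, ?_⟩
          rw [inv_pow, hc, ← map_inv]
          rfl
      obtain ⟨_, c, hc⟩ := h2 y (hY hy)
      exact ⟨c, hc⟩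
    have hpow2 : ∀ k : ℕ, ∀ a : A, ∃ c : A, c ^ q ^ k = a := by
      intro k
      induction k with
      | zero => intro a; exact ⟨a, by simp⟩
      | succ k ih =>
        intro a
        obtain ⟨c, hc⟩ := ih a
        obtain ⟨d, hd⟩ := hpow c
        exact ⟨d, by rw [pow_succ', pow_mul, hd, hc]⟩
    have htriv : ∀ a : A, a = 1 := by
      intro a
      obtain ⟨c, hc⟩ := hpow2 b a
      obtain ⟨⟨y, hy⟩, rfl⟩ : ∃ w : Y, Abelianization.of w = c := QuotientGroup.mk'_surjective _ c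
      rw [← hc, ← map_pow]
      have : (⟨y, hy⟩ : Y) ^ q ^ b = 1 := Subtype.ext (by simpa using hq y hy)
      rw [this, map_one]
    intro y hy
    have h3 : (⟨y, hy⟩ : Y) ∈ _root_.commutator Y := by
      rw [← Abelianization.ker_of]
      exact htriv _
    have h4 : y ∈ (_root_.commutator Y).map Y.subtype := ⟨⟨y, hy⟩, h3, rfl⟩
    rwa [Subgroup.map_subtype_commutator] at h4
  have h2 : ∀ k : ℕ, Y ≤ lcs G k := by
    intro k
    induction k with
    | zero => exact le_top
    | succ k ih =>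
      refine h1.trans ?_
      show _ ≤ (⊤ : Subgroup G).lowerCentralSeries (k + 1)
      rw [Subgroup.lowerCentralSeries_succ]
      exact commutator_mono ih le_top
  obtain ⟨k, hk⟩ := Subgroup.nilpotent_iff_lowerCentralSeries.1 hnil
  rw [eq_bot_iff, ← hk]
  exact h2 k

/-- **Theorem P** -/
theorem thmP {n c m : ℕ} (hn : 0 < n) (hm : 0 < m)
    (H : ∀ (G : Type) [Group G], IsEngel n G → ∀ z ∈ lcs G c, z ^ m ∈ lcs G (c + 1))
    (q : ℕ) (hq : q.Prime) : ∃ r : ℕ, ∀ (G : Type) [Group G], Group.IsNilpotent G →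
      (∃ b : ℕ, ∀ g : G, g ^ q ^ b = 1) → IsEngel n G →
      (Pw (⊤ : Subgroup G) (q ^ r)).lowerCentralSeries (c + 1) = ⊥ := by
  obtain ⟨s, m', hm', hms⟩ := Nat.exists_eq_pow_mul_and_not_dvd hm.ne' q hq.ne_one
  refine ⟨(s + 1) + n, ?_⟩
  intro G _ hnil hb hE
  obtain ⟨b, hb⟩ := hb
  set L : Subgroup G := Pw (⊤ : Subgroup G) (q ^ (s + 1 + n)) with hL
  have hLn : L.Normal := Pw_normal _ _
  set N : Subgroup G := L.lowerCentralSeries c with hNdef
  have hNn : N.Normal := Subgroup.lowerCentralSeries_normal L c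
  have hNL : N ≤ L := Subgroup.lowerCentralSeries_le_self L c
  have hK := choose_dvd q hq (s + 1) n
  have h1 : ⁅N, L⁆ ≤ Pw N (q ^ (s + 1)) := key2 hE hn hK N hNL
  have h2 : L.lowerCentralSeries (c + 1) = ⁅N, L⁆ := Subgroup.lowerCentralSeries_succ L c
  -- `z ^ (q ^ s) ∈ [N, L]`
  have h3 : ∀ z ∈ N, z ^ q ^ s ∈ ⁅N, L⁆ := by
    intro z hz
    have hEL : IsEngel n L := hE.of_injective L.subtype L.subtype_injective n
    have h4 : (lcs L c).map L.subtype = N := by
      rw [hNdef, Subgroup.top_subtype_lowerCentralSeries]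
    have h5 : (lcs L (c + 1)).map L.subtype = ⁅N, L⁆ := by
      rw [← h2, Subgroup.top_subtype_lowerCentralSeries]
    rw [← h4] at hz
    obtain ⟨w, hw, rfl⟩ := hz
    have h6 := H L hEL w hw
    have h7 : (L.subtype w) ^ m ∈ ⁅N, L⁆ := by
      rw [← h5]
      exact ⟨w ^ m, h6, by rw [map_pow]⟩
    -- invert `m'` modulo the order
    have hcop : Nat.Coprime m' (orderOf ((L.subtype w) ^ q ^ s)) := by
      have h8 : orderOf ((L.subtype w) ^ q ^ s) ∣ q ^ b := by
        apply orderOf_dvd_of_pow_eq_one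
        exact hb _
      exact Nat.Coprime.coprime_dvd_right h8
        (Nat.Coprime.pow_right _ ((Nat.Prime.coprime_iff_not_dvd hq).2 hm').symm)
    obtain ⟨u, hu⟩ := exists_pow_eq_self_of_coprime hcop
    rw [← hu, ← pow_mul (L.subtype w) (q ^ s) m', ← hms]
    exact pow_mem h7 u
  have h4 : Pw N (q ^ s) ≤ ⁅N, L⁆ := Pw_le h3
  have h5 : Pw N (q ^ (s + 1)) ≤ Pw (Pw N (q ^ s)) q := by
    refine Pw_le fun z hz => ?_
    rw [pow_succ, pow_mul]
    exact pow_mem_Pw (pow_mem_Pw hz)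
  have h6 : Pw N (q ^ s) = ⊥ :=
    eq_bot_of_Pw q b (Pw N (q ^ s)) (fun y _ => hb y) (h4.trans (h1.trans h5))
  rw [h2, eq_bot_iff]
  refine h1.trans (h5.trans ?_)
  rw [h6]
  refine Pw_le fun z hz => ?_
  rw [Subgroup.mem_bot] at hz ⊢
  rw [hz, one_pow]

end Pool.Agent.H798R2.EP
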