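import Pool.Agent.H798R2.EP.A

/-!
# Isolators in Engel groups
-/

set_option autoImplicit false

namespace Pool.Agent.H798R2.EP

open Subgroup Pool.Agent.Helper111.EN
open scoped commutatorElement

variable {G : Type} [Group G]

/-- `[u, v^e] = [u,v]^e` modulo `Z` if `[u,v]` commutes with `v` modulo the normal subgroup `Z`;
here `[u,v] = u⁻¹ v⁻¹ u v` -/
theorem cm_pow {Z : Subgroup G} [Z.Normal] {u v : G} (h : cm (cm u v) v ∈ Z) (e : ℕ) :
    (cm u (v ^ e))⁻¹ * (cm u v) ^ e ∈ Z := by
  let π := QuotientGroup.mk' Z
  rw [← mk_eq_one_iff]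
  show π _ = 1
  have h1 : cm (cm (π u) (π v)) (π v) = 1 := by
    rw [← cm_map, ← cm_map]
    exact (mk_eq_one_iff _ _).2 h
  rw [map_mul, map_inv, map_pow, cm_map, cm_map, map_pow]
  generalize π u = a at h1 ⊢
  generalize π v = b at h1 ⊢
  have h2 : b⁻¹ * a * b = a * cm a b := by simp only [cm]; group
  have h3 : b⁻¹ * cm a b * b = cm a b := by
    have : cm (cm a b) b = (cm a b)⁻¹ * (b⁻¹ * cm a b * b) := by
      conv_lhs => rw [cm]
      group
    rw [this, inv_mul_eq_one] at h1
    exact h1.symm
  have h4 : ∀ k : ℕ, (b ^ k)⁻¹ * a * b ^ k = a * (cm a b) ^ k := by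
    intro k
    induction k with
    | zero => simp
    | succ k ih =>
      have h5 : (b ^ (k + 1))⁻¹ * a * b ^ (k + 1) = b⁻¹ * ((b ^ k)⁻¹ * a * b ^ k) * b := by
        rw [pow_succ]; group
      have h6 : b⁻¹ * (cm a b) ^ k * b = (cm a b) ^ k := by
        have := conj_pow (a := b⁻¹) (b := cm a b) (i := k)
        rw [inv_inv, h3] at this
        exact this.symm
      rw [h5, ih]
      calc b⁻¹ * (a * cm a b ^ k) * b = (b⁻¹ * a * b) * (b⁻¹ * cm a b ^ k * b) := by group
        _ = a * cm a b * cm a b ^ k := by rw [h2, h6]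
        _ = a * cm a b ^ (k + 1) := by rw [pow_succ', mul_assoc]
  have h7 : cm a (b ^ e) = (cm a b) ^ e := by
    have h8 := h4 e
    have h9 : cm a (b ^ e) = a⁻¹ * ((b ^ e)⁻¹ * a * b ^ e) := by simp only [cm]; group
    rw [h9, h8, inv_mul_cancel_left]
  rw [h7, inv_mul_cancel]

theorem cm_mem_left {D : Subgroup G} [hD : D.Normal] {v : G} (hv : v ∈ D) (x : G) : cm v x ∈ D := by
  have : cm v x = v⁻¹ * (x⁻¹ * v * x⁻¹⁻¹) := by simp only [cm]; group
  rw [this]
  exact mul_mem (inv_mem hv) (hD.conj_mem v hv x⁻¹)

theorem cm_mem_right {D : Subgroup G} [hD : D.Normal] (u : G) {v : G} (hv : v ∈ D) : cm u v ∈ D := by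
  have : cm u v = (u⁻¹ * v⁻¹ * u⁻¹⁻¹) * v := by simp only [cm]; group
  rw [this]
  exact mul_mem (hD.conj_mem _ (inv_mem hv) u⁻¹) hv

/-- membership in the next term of the upper central series via `cm` -/
theorem mem_ucs_succ {i : ℕ} {v : G} : v ∈ Subgroup.upperCentralSeries G (i + 1) ↔
    ∀ u : G, cm u v ∈ Subgroup.upperCentralSeries G i := by
  rw [Subgroup.mem_upperCentralSeries_succ_iff]
  constructor
  · intro h u
    have h1 := h u⁻¹
    have hn : (Subgroup.upperCentralSeries G i).Normal := inferInstance
    have h3 := hn.conj_mem _ h1 (v⁻¹)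
    have h4 : v⁻¹ * ⁅v, u⁻¹⁆ * v⁻¹⁻¹ = cm u v := by
      rw [commutatorElement_def]; simp only [cm]; group
    rw [← h4]
    exact h3
  · intro h y
    have h1 := h y⁻¹
    have hn : (Subgroup.upperCentralSeries G i).Normal := inferInstance
    have h3 := hn.conj_mem _ h1 v
    have h4 : v * cm y⁻¹ v * v⁻¹ = ⁅v, y⁆ := by
      rw [commutatorElement_def]; simp only [cm]; group
    rw [← h4]
    exact h3

theorem mem_ucs_succ' {i : ℕ} {v : G} : v ∈ Subgroup.upperCentralSeries G (i + 1) ↔
    ∀ x : G, cm v x ∈ Subgroup.upperCentralSeries G i := by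
  rw [mem_ucs_succ]
  constructor
  · intro h x
    have h4 : cm v x = (cm x v)⁻¹ := by simp only [cm]; group
    rw [h4]
    exact inv_mem (h x)
  · intro h x
    have h4 : cm x v = (cm v x)⁻¹ := by simp only [cm]; group
    rw [h4]
    exact inv_mem (h x)

theorem eng_mem {D : Subgroup G} [hD : D.Normal] {u : G} (hu : u ∈ D) (x : G) :
    ∀ k, eng k u x ∈ D := by
  intro k
  induction k with
  | zero => exact hu
  | succ k ih => exact cm_mem_left ih x

/-- Lemma U -/
theorem lemU {n e : ℕ} (hE : IsEngel n G) (D : Subgroup G) [hD : D.Normal]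
    (htf : ∀ v ∈ D, v ^ e = 1 → v = 1) : ∀ i, ∀ v ∈ D,
      v ^ e ∈ Subgroup.upperCentralSeries G i → v ∈ Subgroup.upperCentralSeries G i := by
  intro i
  induction i with
  | zero =>
    intro v hv h
    rw [Subgroup.upperCentralSeries_zero, Subgroup.mem_bot] at h ⊢
    exact htf v hv h
  | succ i ih =>
    intro v hv h
    rw [mem_ucs_succ]
    intro u
    -- downward induction
    have key : ∀ j, j < n → eng (n - j) u v ∈ Subgroup.upperCentralSeries G i := by
      intro j
      induction j with
      | zero => intro _; rw [Nat.sub_zero, hE]; exact one_mem _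
      | succ j ihj =>
        intro hj
        have h1 := ihj (by omega)
        obtain ⟨k, hk⟩ : ∃ k, n - (j + 1) = k + 1 := ⟨n - (j + 1) - 1, by omega⟩
        have hk2 : n - j = k + 2 := by omega
        rw [hk]
        rw [hk2] at h1
        have h2 : cm (cm (eng k u v) v) v ∈ Subgroup.upperCentralSeries G i := h1
        have h3 := cm_pow h2 e
        have h4 : cm (eng k u v) (v ^ e) ∈ Subgroup.upperCentralSeries G i := mem_ucs_succ.1 h _
        have h5 : (cm (eng k u v) v) ^ e ∈ Subgroup.upperCentralSeries G i := by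
          have := mul_mem h4 h3
          rwa [mul_inv_cancel_left] at this
        exact ih _ (cm_mem_right _ hv) h5
    rcases Nat.eq_zero_or_pos n with hn | hn
    · -- `n = 0`: the group is trivial
      subst hn
      have : ∀ x : G, x = 1 := fun x => hE x x
      rw [this (cm u v)]
      exact one_mem _
    · have h1 := key (n - 1) (by omega)
      have h2 : n - (n - 1) = 1 := by omega
      rw [h2] at h1
      exact h1

/-- Lemma V -/
theorem lemV {n e t : ℕ} (hE : IsEngel n G) (D : Subgroup G) [hD : D.Normal]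
    (htf : ∀ v ∈ D, v ^ e = 1 → v = 1) (A : Subgroup G) [hA : A.Normal]
    (hAe : ∀ x : G, x ^ e ∈ A) (hAt : A.lowerCentralSeries t = ⊥) :
    D ≤ Subgroup.upperCentralSeries G t := by
  have hU := lemU hE D htf
  have key : ∀ i, i ≤ t → ∀ v ∈ D, v ∈ A.lowerCentralSeries (t - i) →
      v ∈ Subgroup.upperCentralSeries G i := by
    intro i
    induction i with
    | zero =>
      intro _ v _ hv
      rw [Nat.sub_zero, hAt, Subgroup.mem_bot] at hv
      rw [hv]; exact one_mem _
    | succ i ih =>
      intro hi v hv hvA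
      have ih' := ih (by omega)
      have hsucc : t - i = (t - (i + 1)) + 1 := by omega
      have hN : (A.lowerCentralSeries (t - (i + 1))).Normal := inferInstance
      rw [mem_ucs_succ']
      intro x
      have key2 : ∀ j, j < n → eng (n - j) v x ∈ Subgroup.upperCentralSeries G i := by
        intro j
        induction j with
        | zero => intro _; rw [Nat.sub_zero, hE]; exact one_mem _
        | succ j ihj =>
          intro hj
          have h1 := ihj (by omega)
          obtain ⟨k, hk⟩ : ∃ k, n - (j + 1) = k + 1 := ⟨n - (j + 1) - 1, by omega⟩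
          have hk2 : n - j = k + 2 := by omega
          rw [hk]
          rw [hk2] at h1
          have h2 : cm (cm (eng k v x) x) x ∈ Subgroup.upperCentralSeries G i := h1
          have h3 := cm_pow h2 e
          have h4 : cm (eng k v x) (x ^ e) ∈ Subgroup.upperCentralSeries G i := by
            apply ih'
            · exact cm_mem_left (eng_mem hv x k) _
            · rw [hsucc, Subgroup.lowerCentralSeries_succ]
              have h6 : cm (eng k v x) (x ^ e) = ⁅(eng k v x)⁻¹, (x ^ e)⁻¹⁆ := by
                rw [commutatorElement_def, cm, inv_inv, inv_inv]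
              rw [h6]
              exact commutator_mem_commutator (inv_mem (eng_mem hvA x k)) (inv_mem (hAe x))
          have h5 : (cm (eng k v x) x) ^ e ∈ Subgroup.upperCentralSeries G i := by
            have := mul_mem h4 h3
            rwa [mul_inv_cancel_left] at this
          exact hU i _ (cm_mem_left (eng_mem hv x k) x) h5
      rcases Nat.eq_zero_or_pos n with hn | hn
      · subst hn
        have : ∀ x : G, x = 1 := fun x => hE x x
        rw [this (cm v x)]
        exact one_mem _
      · have h1 := key2 (n - 1) (by omega)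
        have h2 : n - (n - 1) = 1 := by omega
        rw [h2] at h1
        exact h1
  intro v hv
  apply hU t v hv
  apply key t le_rfl _ (pow_mem hv e)
  rw [Nat.sub_self]
  exact hAe v

end Pool.Agent.H798R2.EP
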