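import Pool.Agent.H798R2.EP.A

/-!
# Engel `p`-groups of large class: `C_p wr C_p^d`
-/

set_option autoImplicit false

namespace Pool.Agent.H798R2.EP

open Subgroup Pool.Agent.Helper111.EN
open scoped commutatorElement

/-- the wreath product `C_p wr C_p^d` -/
@[ext] structure Wr (p d : ℕ) where
  t : Fin d → ZMod p
  f : (Fin d → ZMod p) → ZMod p

namespace Wr

variable {p d : ℕ}

instance : Mul (Wr p d) := ⟨fun x y => ⟨x.t + y.t, fun z => x.f z + y.f (z - x.t)⟩⟩
instance : One (Wr p d) := ⟨⟨0, fun _ => 0⟩⟩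
instance : Inv (Wr p d) := ⟨fun x => ⟨-x.t, fun z => -x.f (z + x.t)⟩⟩

@[simp] lemma mul_t (x y : Wr p d) : (x * y).t = x.t + y.t := rfl
@[simp] lemma mul_f (x y : Wr p d) (z) : (x * y).f z = x.f z + y.f (z - x.t) := rfl
@[simp] lemma one_t : (1 : Wr p d).t = 0 := rfl
@[simp] lemma one_f (z) : (1 : Wr p d).f z = 0 := rfl
@[simp] lemma inv_t (x : Wr p d) : (x⁻¹).t = - x.t := rfl
@[simp] lemma inv_f (x : Wr p d) (z) : (x⁻¹).f z = - x.f (z + x.t) := rfl

instance : Group (Wr p d) := Group.ofLeftAxioms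
  (by
    intro x y z
    ext1
    · simp [add_assoc]
    · funext w
      simp only [mul_f, mul_t]
      rw [add_assoc, sub_sub])
  (by
    intro x
    ext1
    · simp
    · funext w
      simp)
  (by
    intro x
    ext1
    · simp
    · funext w
      simp)

lemma cm_t (x y : Wr p d) : (cm x y).t = 0 := by
  simp only [cm, mul_t, inv_t]
  abel

lemma cm_f (v y : Wr p d) (hv : v.t = 0) (z) : (cm v y).f z = v.f (z + y.t) - v.f z := by
  simp only [cm, mul_f, mul_t, inv_f, inv_t, hv]
  simp only [neg_zero, sub_zero, add_zero, zero_add, sub_neg_eq_add]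
  have h : z - -y.t = z + y.t := by abel
  ring_nf
  

lemma eng_succ' {G : Type} [Group G] (k : ℕ) (x y : G) : eng (k + 1) x y = eng k (cm x y) y := by
  induction k with
  | zero => rfl
  | succ k ih =>
    show cm (eng (k + 1) x y) y = cm (eng k (cm x y) y) y
    rw [ih]

lemma eng_tf (v y : Wr p d) (hv : v.t = 0) : ∀ k, (eng k v y).t = 0 ∧
    (eng k v y).f = (fwdDiff y.t)^[k] v.f := by
  intro k
  induction k with
  | zero => exact ⟨hv, rfl⟩
  | succ k ih =>
    refine ⟨cm_t _ _, ?_⟩
    funext z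
    rw [Function.iterate_succ_apply']
    show (cm (eng k v y) y).f z = _
    rw [cm_f _ _ ih.1, ih.2]
    rfl

lemma fwd_p (hp : p.Prime) (s : Fin d → ZMod p) (g : (Fin d → ZMod p) → ZMod p) :
    (fwdDiff s)^[p] g = 0 := by
  haveI := Fact.mk hp
  funext z
  rw [fwdDiff_iter_eq_sum_shift, Finset.sum_range_succ, Finset.sum_eq_single 0]
  · have h1 : (p : ℕ) • s = 0 := by
      funext i
      simp
    rw [h1, zero_smul, add_zero, Nat.sub_self, pow_zero, Nat.choose_self, Nat.sub_zero,
      Nat.choose_zero_right]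
    rcases hp.eq_two_or_odd' with h | h
    · subst h
      have h2 : (g z : ZMod 2) + g z = 0 := CharTwo.add_self_eq_zero _
      simpa using h2
    · rw [h.neg_one_pow]
      simp
  · intro i hi hi0
    rw [Finset.mem_range] at hi
    have h1 : ((p.choose i : ℕ) : ZMod p) = 0 := by
      rw [ZMod.natCast_eq_zero_iff]
      exact hp.dvd_choose_self hi0 hi
    rw [zsmul_eq_mul]
    push_cast
    rw [h1]
    simp
  · intro h
    exact absurd (Finset.mem_range.2 hp.pos) h

theorem isEngel (hp : p.Prime) {n : ℕ} (hn : p + 1 ≤ n) : IsEngel n (Wr p d) := by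
  intro x y
  obtain ⟨j, rfl⟩ := Nat.exists_eq_add_of_le hn
  have h1 : eng (p + 1) x y = 1 := by
    rw [eng_succ']
    obtain ⟨h1, h2⟩ := eng_tf (cm x y) y (cm_t x y) p
    rw [fwd_p hp] at h2
    exact Wr.ext h1 h2
  induction j with
  | zero => exact h1
  | succ j ih =>
    have h2 := ih (by omega)
    show cm (eng (p + 1 + j) x y) y = 1
    rw [h2]
    simp [cm]

/-- the test elements -/
def el (p d : ℕ) : ℕ → Wr p d
  | 0 => ⟨0, fun z => if z = 0 then 1 else 0⟩
  | j + 1 => ⟨fun i => if (i : ℕ) = j then 1 else 0, fun _ => 0⟩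

lemma IC_el (hp : p.Prime) : ∀ k, k ≤ d → (IC k (el p d)).t = 0 ∧ (IC k (el p d)).f 0 = 1 ∧
    ∀ z, (IC k (el p d)).f z ≠ 0 → ∀ j : Fin d, k ≤ j → z j = 0 := by
  haveI := Fact.mk hp
  intro k
  induction k with
  | zero =>
    intro _
    refine ⟨rfl, ?_, ?_⟩
    · simp [IC, el]
    · intro z hz j _
      have : z = 0 := by
        by_contra h
        apply hz
        simp [IC, el, h]
      rw [this]; rfl
  | succ k ih =>
    intro hk
    obtain ⟨h1, h2, h3⟩ := ih (by omega)
    set v := IC k (el p d) with hv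
    have hf : ∀ z, (IC (k + 1) (el p d)).f z = v.f z - v.f (z - (el p d (k + 1)).t) := by
      intro z
      show (⁅v, el p d (k + 1)⁆).f z = _
      rw [commutatorElement_def]
      simp only [mul_f, mul_t, inv_f, inv_t, h1]
      simp [el]
      ring_nf
    refine ⟨?_, ?_, ?_⟩
    · show (⁅v, el p d (k + 1)⁆).t = 0
      rw [commutatorElement_def]
      simp only [mul_t, inv_t]
      abel
    · rw [hf, h2]
      have h4 : v.f (0 - (el p d (k + 1)).t) = 0 := by
        by_contra h
        have h5 := h3 _ h ⟨k, hk⟩ le_rfl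
        simp [el] at h5
      rw [h4, sub_zero]
    · intro z hz j hj
      rw [hf] at hz
      by_cases h4 : v.f z = 0
      · have h5 : v.f (z - (el p d (k + 1)).t) ≠ 0 := by
          intro h; apply hz; rw [h4, h, sub_zero]
        have h6 := h3 _ h5 j (by omega)
        have h7 : (el p d (k + 1)).t j = 0 := by
          simp only [el]
          rw [if_neg (by omega)]
        rw [Pi.sub_apply, h7, sub_zero] at h6
        exact h6
      · exact h3 z h4 j (by omega)

/-- the equivalence with the product -/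
def equivProd : Wr p d ≃ (Fin d → ZMod p) × ((Fin d → ZMod p) → ZMod p) where
  toFun x := (x.t, x.f)
  invFun y := ⟨y.1, y.2⟩
  left_inv x := rfl
  right_inv y := rfl

/-- the witness -/
theorem witness (p : ℕ) (hp : p.Prime) (n : ℕ) (hn : p + 1 ≤ n) (N : ℕ) :
    ∃ (K : Type) (_ : Group K), Group.IsNilpotent K ∧ (∃ b, ∀ g : K, g ^ p ^ b = 1) ∧ IsEngel n K ∧
      ∃ f : ℕ → K, IC N f ≠ 1 := by
  haveI := Fact.mk hp
  haveI : Finite (Wr p N) := Finite.of_equiv _ equivProd.symm
  have hcard : ∃ b, Nat.card (Wr p N) = p ^ b := by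
    refine ⟨N + p ^ N, ?_⟩
    rw [Nat.card_congr equivProd, Nat.card_prod, pow_add]
    congr 1
    · simp
    · simp
  obtain ⟨b, hb⟩ := hcard
  have hpg : IsPGroup p (Wr p N) := IsPGroup.of_card hb
  refine ⟨Wr p N, inferInstance, hpg.isNilpotent, ⟨b, fun g => by rw [← hb]; exact pow_card_eq_one'⟩,
    isEngel hp hn, el p N, ?_⟩
  intro h
  have h1 := (IC_el (d := N) hp N le_rfl).2.1
  rw [h] at h1
  simp at h1

end Wr

end Pool.Agent.H798R2.EP
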