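import Pool.Agent.H798R2.EP.C
import Pool.Agent.H798R2.EP.D
import Pool.Agent.H798R2.EP.E

/-!
# Relatively free groups; torsion in deep terms of the lower central series
-/

set_option autoImplicit false

namespace Pool.Agent.H798R2.EP

open Subgroup Pool.Agent.Helper111.EN
open scoped commutatorElement

/-- the laws (in countably many variables) of a class of groups -/
def Rel (C : ∀ (K : Type) [Group K], Prop) : Subgroup (FreeGroup ℕ) :=
  sInf {M : Subgroup (FreeGroup ℕ) | ∃ (K : Type) (_ : Group K) (f : FreeGroup ℕ →* K),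
    f.ker = M ∧ C K}

theorem mem_Rel {C : ∀ (K : Type) [Group K], Prop} {w : FreeGroup ℕ} :
    w ∈ Rel C ↔ ∀ (K : Type) [Group K], C K → ∀ f : FreeGroup ℕ →* K, f w = 1 := by
  rw [Rel, Subgroup.mem_sInf]
  constructor
  · intro h K _ hK f
    exact h _ ⟨K, inferInstance, f, rfl, hK⟩
  · rintro h _ ⟨K, _, f, rfl, hK⟩
    exact h K hK f

instance Rel_normal (C : ∀ (K : Type) [Group K], Prop) : (Rel C).Normal := by
  refine ⟨fun w hw g => ?_⟩
  rw [mem_Rel] at hw ⊢
  intro K _ hK f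
  rw [map_mul, map_mul, hw K hK f, mul_one, map_inv, mul_inv_cancel]

/-- nilpotent `n`-Engel groups of exponent a power of `q` -/
def CP (q n : ℕ) (K : Type) [Group K] : Prop :=
  Group.IsNilpotent K ∧ (∃ b : ℕ, ∀ g : K, g ^ q ^ b = 1) ∧ IsEngel n K

section rel
variable {C : ∀ (K : Type) [Group K], Prop}

/-- the relatively free group -/
abbrev RF (C : ∀ (K : Type) [Group K], Prop) : Type := FreeGroup ℕ ⧸ Rel C

/-- induced homomorphism -/
def ind {K : Type} [Group K] (hK : C K) (f : FreeGroup ℕ →* K) : RF C →* K :=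
  QuotientGroup.lift (Rel C) f (fun w hw => mem_Rel.1 hw K hK f)

theorem ind_mk {K : Type} [Group K] (hK : C K) (f : FreeGroup ℕ →* K) (w : FreeGroup ℕ) :
    ind hK f (QuotientGroup.mk' (Rel C) w) = f w := rfl

theorem RF_eq_one {x : RF C} (h : ∀ (K : Type) [Group K] (hK : C K) (f : FreeGroup ℕ →* K),
    ind hK f x = 1) : x = 1 := by
  obtain ⟨w, rfl⟩ := QuotientGroup.mk'_surjective (Rel C) x
  rw [mk_eq_one_iff, mem_Rel]
  intro K _ hK f
  exact h K hK f

theorem RF_engel {n : ℕ} (hC : ∀ (K : Type) [Group K], C K → IsEngel n K) : IsEngel n (RF C) := by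
  intro x y
  apply RF_eq_one
  intro K _ hK f
  rw [eng_map]
  exact hC K hK _ _

end rel

theorem lcs_mono_mem {G : Type} [Group G] {A B : Subgroup G} (h : A ≤ B) (c : ℕ) {x : G}
    (hx : x ∈ A.lowerCentralSeries c) : x ∈ B.lowerCentralSeries c :=
  Subgroup.lowerCentralSeries_mono c h hx

theorem lcs_bot_of_le_ucs {G : Type} [Group G] {s t : ℕ}
    (h : lcs G s ≤ Subgroup.upperCentralSeries G t) : lcs G (s + t) = ⊥ := by
  have key : ∀ k, k ≤ t → lcs G (s + k) ≤ Subgroup.upperCentralSeries G (t - k) := by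
    intro k
    induction k with
    | zero => intro _; exact h
    | succ k ih =>
      intro hk
      have h1 := ih (by omega)
      have h2 : t - k = (t - (k + 1)) + 1 := by omega
      rw [h2] at h1
      show (⊤ : Subgroup G).lowerCentralSeries (s + k + 1) ≤ _
      rw [Subgroup.lowerCentralSeries_succ]
      exact (commutator_mono h1 le_rfl).trans (Subgroup.commutator_upperCentralSeries_top_le G _)
  have := key t le_rfl
  rw [Nat.sub_self, Subgroup.upperCentralSeries_zero] at this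
  exact eq_bot_iff.2 this

/-- torsion words in `γ_{s+1}` for Engel `p`-groups -/
theorem torsion_word {n c p r : ℕ} (hp : p.Prime) (hn : p + 1 ≤ n) (s : ℕ)
    (hP : ∀ (G : Type) [Group G], Group.IsNilpotent G →
      (∃ b : ℕ, ∀ g : G, g ^ p ^ b = 1) → IsEngel n G →
      (Pw (⊤ : Subgroup G) (p ^ r)).lowerCentralSeries (c + 1) = ⊥) :
    ∃ w ∈ lcs (FreeGroup ℕ) s, w ^ p ^ r ∈ Rel (CP p n) ∧ w ∉ Rel (CP p n) := by
  by_contra hcon
  push Not at hcon
  let G := RF (CP p n)
  have hE : IsEngel n G := RF_engel (fun K _ hK => hK.2.2)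
  let π := QuotientGroup.mk' (Rel (CP p n))
  have hπ : Function.Surjective π := QuotientGroup.mk'_surjective _
  have hA : (Pw (⊤ : Subgroup G) (p ^ r)).lowerCentralSeries (c + 1) = ⊥ := by
    rw [eq_bot_iff]
    intro z hz
    rw [Subgroup.mem_bot]
    apply RF_eq_one
    intro K _ hK f
    have h1 : ind hK f z ∈ ((Pw (⊤ : Subgroup G) (p ^ r)).lowerCentralSeries (c + 1)).map (ind hK f) :=
      ⟨z, hz, rfl⟩
    rw [Subgroup.map_lowerCentralSeries, map_Pw] at h1
    have h2 : Pw ((⊤ : Subgroup G).map (ind hK f)) (p ^ r) ≤ Pw ⊤ (p ^ r) := by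
      apply Pw_le
      intro x _
      exact pow_mem_Pw (mem_top x)
    have h3 := lcs_mono_mem h2 (c + 1) h1
    rw [hP K hK.1 hK.2.1 hK.2.2, Subgroup.mem_bot] at h3
    exact h3
  have hD : ∀ v ∈ lcs G s, v ^ p ^ r = 1 → v = 1 := by
    intro v hv hv1
    rw [← map_lcs π hπ] at hv
    obtain ⟨w, hw, rfl⟩ := hv
    rw [← map_pow] at hv1
    have h1 := hcon w hw ((mk_eq_one_iff _ _).1 hv1)
    exact (mk_eq_one_iff _ _).2 h1
  have h1 := lemV hE (lcs G s) hD (Pw (⊤ : Subgroup G) (p ^ r))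
    (fun x => pow_mem_Pw (mem_top x)) hA
  have h2 := lcs_bot_of_le_ucs h1
  obtain ⟨K, _, hK1, hK2, hK3, f, hf⟩ := Wr.witness p hp n hn (s + (c + 1))
  apply hf
  have hK : CP p n K := ⟨hK1, hK2, hK3⟩
  have h3 : IC (s + (c + 1)) (fun i => π (FreeGroup.of i)) = 1 := by
    have := IC_mem_lcs (s + (c + 1)) (fun i => π (FreeGroup.of i))
    have h4 : IC (s + (c + 1)) (fun i => π (FreeGroup.of i)) ∈ lcs G (s + (c + 1)) := this
    rw [h2, Subgroup.mem_bot] at h4
    exact h4
  rw [← IC_map] at h3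
  have h4 := mem_Rel.1 ((mk_eq_one_iff _ _).1 h3) K hK (FreeGroup.lift f)
  rw [IC_map] at h4
  simpa using h4

end Pool.Agent.H798R2.EP
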