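import Pool.Agent.H798R2.EP.F

/-!
# Killing the other primes; reduction of laws to `q`-groups
-/

set_option autoImplicit false

namespace Pool.Agent.H798R2.EP

open Subgroup Pool.Agent.Helper111.EN
open scoped commutatorElement

/-- for `q ∤ m`: class at most `c` -/
theorem class_of_not_dvd {n c m q : ℕ} (hq : q.Prime) (hqm : ¬ q ∣ m)
    (H : ∀ (G : Type) [Group G], IsEngel n G → ∀ z ∈ lcs G c, z ^ m ∈ lcs G (c + 1))
    (K : Type) [Group K] (hK : CP q n K) : lcs K c = ⊥ := by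
  obtain ⟨hnil, ⟨b, hb⟩, hE⟩ := hK
  have h1 : lcs K c ≤ lcs K (c + 1) := by
    intro z hz
    have h2 := H K hE z hz
    have hcop : Nat.Coprime m (orderOf z) := by
      have h8 : orderOf z ∣ q ^ b := orderOf_dvd_of_pow_eq_one (hb _)
      exact Nat.Coprime.coprime_dvd_right h8
        (Nat.Coprime.pow_right _ ((Nat.Prime.coprime_iff_not_dvd hq).2 hqm).symm)
    obtain ⟨u, hu⟩ := exists_pow_eq_self_of_coprime hcop
    rw [← hu]
    exact pow_mem h2 u
  have h2 : ∀ k, lcs K c ≤ lcs K (c + k) := by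
    intro k
    induction k with
    | zero => exact le_rfl
    | succ k ih =>
      refine h1.trans ?_
      show (⊤ : Subgroup K).lowerCentralSeries (c + 1) ≤
        (⊤ : Subgroup K).lowerCentralSeries (c + k + 1)
      rw [Subgroup.lowerCentralSeries_succ, Subgroup.lowerCentralSeries_succ]
      exact commutator_mono ih le_rfl
  obtain ⟨k, hk⟩ := Subgroup.nilpotent_iff_lowerCentralSeries.1 hnil
  rw [eq_bot_iff, ← hk]
  exact (h2 k).trans (Subgroup.lowerCentralSeries_antitone _ (Nat.le_add_left k c))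

/-- the substitution `x_i ↦ x_i ^ M` -/
def phi (M : ℕ) : FreeGroup ℕ →* FreeGroup ℕ := FreeGroup.lift (fun i => (FreeGroup.of i) ^ M)

theorem phi_of (M i : ℕ) : phi M (FreeGroup.of i) = (FreeGroup.of i) ^ M := by simp [phi]

theorem hom_mem {K : Type} [Group K] (f : FreeGroup ℕ →* K) (P : Subgroup K)
    (h : ∀ i, f (FreeGroup.of i) ∈ P) (w : FreeGroup ℕ) : f w ∈ P := by
  induction w using FreeGroup.induction_on with
  | C1 => rw [map_one]; exact one_mem _
  | of i => exact h i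
  | inv_of i hi => rw [map_inv]; exact inv_mem hi
  | mul x y hx hy => rw [map_mul]; exact mul_mem hx hy

theorem kill_q {n c M q r : ℕ} (hM : q ^ r ∣ M)
    (hP : ∀ (G : Type) [Group G], Group.IsNilpotent G →
      (∃ b : ℕ, ∀ g : G, g ^ q ^ b = 1) → IsEngel n G →
      (Pw (⊤ : Subgroup G) (q ^ r)).lowerCentralSeries (c + 1) = ⊥)
    {K : Type} [Group K] (hK : CP q n K) (f : FreeGroup ℕ →* K) {w : FreeGroup ℕ}
    (hw : w ∈ lcs (FreeGroup ℕ) (c + 1)) : f (phi M w) = 1 := by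
  obtain ⟨t, rfl⟩ := hM
  have h1 : ∀ w, (f.comp (phi (q ^ r * t))) w ∈ Pw (⊤ : Subgroup K) (q ^ r) := by
    apply hom_mem
    intro i
    rw [MonoidHom.comp_apply, phi_of, map_pow, mul_comm, pow_mul]
    exact pow_mem_Pw (mem_top _)
  have h2 : f (phi (q ^ r * t) w) ∈ ((lcs (FreeGroup ℕ) (c + 1)).map (f.comp (phi (q ^ r * t)))) :=
    ⟨w, hw, rfl⟩
  rw [Subgroup.map_lowerCentralSeries] at h2
  have h3 : (⊤ : Subgroup (FreeGroup ℕ)).map (f.comp (phi (q ^ r * t))) ≤ Pw ⊤ (q ^ r) := by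
    rintro _ ⟨v, _, rfl⟩
    exact h1 v
  have h4 := lcs_mono_mem h3 (c + 1) h2
  rw [hP K hK.1 hK.2.1 hK.2.2, Subgroup.mem_bot] at h4
  exact h4

theorem keep_p {n M p : ℕ} (hp : p.Prime) (hM : ¬ p ∣ M) {w : FreeGroup ℕ} (hw : w ∉ Rel (CP p n)) :
    phi M w ∉ Rel (CP p n) := by
  rw [mem_Rel] at hw ⊢
  push Not at hw ⊢
  obtain ⟨K, _, hK, f, hf⟩ := hw
  obtain ⟨b, hb⟩ := hK.2.1
  have h1 : ∀ x : K, ∃ u : ℕ, (x ^ u) ^ M = x := by
    intro x
    have hcop : Nat.Coprime M (orderOf x) := by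
      have h8 : orderOf x ∣ p ^ b := orderOf_dvd_of_pow_eq_one (hb _)
      exact Nat.Coprime.coprime_dvd_right h8
        (Nat.Coprime.pow_right _ ((Nat.Prime.coprime_iff_not_dvd hp).2 hM).symm)
    obtain ⟨u, hu⟩ := exists_pow_eq_self_of_coprime hcop
    exact ⟨u, by rw [← pow_mul, mul_comm, pow_mul, hu]⟩
  choose u hu using h1
  refine ⟨K, inferInstance, hK, FreeGroup.lift (fun i => (f (FreeGroup.of i)) ^ u (f (FreeGroup.of i))), ?_⟩
  have h2 : (FreeGroup.lift (fun i => (f (FreeGroup.of i)) ^ u (f (FreeGroup.of i)))).comp (phi M) = f := by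
    ext i
    rw [MonoidHom.comp_apply, phi_of, map_pow, FreeGroup.lift_apply_of]
    exact hu _
  intro h
  apply hf
  rw [← h2, MonoidHom.comp_apply]
  exact h

/-- an element of the free group involves finitely many generators -/
theorem finite_support (w : FreeGroup ℕ) :
    ∃ S : Finset ℕ, w ∈ closure ((fun i => FreeGroup.of i) '' (S : Set ℕ)) := by
  classical
  have hmono : ∀ {S T : Finset ℕ}, S ⊆ T → closure ((fun i => (FreeGroup.of i : FreeGroup ℕ)) '' (S : Set ℕ)) ≤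
      closure ((fun i => (FreeGroup.of i : FreeGroup ℕ)) '' (T : Set ℕ)) := by
    intro S T h
    exact Subgroup.closure_mono (Set.image_mono (by exact_mod_cast h))
  induction w using FreeGroup.induction_on with
  | C1 => exact ⟨∅, one_mem _⟩
  | of i => exact ⟨{i}, subset_closure ⟨i, by simp, rfl⟩⟩
  | inv_of i hi => exact ⟨{i}, inv_mem (subset_closure ⟨i, by simp, rfl⟩)⟩
  | mul x y hx hy =>
    obtain ⟨S, hS⟩ := hx
    obtain ⟨T, hT⟩ := hy
    exact ⟨S ∪ T, mul_mem (hmono Finset.subset_union_left hS) (hmono Finset.subset_union_right hT)⟩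

/-- laws of all `CP q n` are laws of all locally nilpotent `n`-Engel groups -/
theorem law_of_CP {n : ℕ} {w : FreeGroup ℕ} (hw : ∀ q : ℕ, q.Prime → w ∈ Rel (CP q n))
    (K : Type) [Group K] (hE : IsEngel n K) (hl : Pool.Agent.Helper28.LCN.LocNilp K)
    (f : FreeGroup ℕ →* K) : f w = 1 := by
  classical
  by_contra hne
  obtain ⟨S, hS⟩ := finite_support w
  set K0 : Subgroup K := closure ((S.image (fun i => f (FreeGroup.of i)) : Finset K) : Set K) with hK0
  have hnil : Group.IsNilpotent K0 := hl _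
  have hfg : Group.FG K0 := (Group.fg_iff_subgroup_fg _).2 ⟨_, rfl⟩
  have hmem : ∀ i ∈ S, f (FreeGroup.of i) ∈ K0 := by
    intro i hi
    apply Subgroup.subset_closure
    rw [Finset.mem_coe, Finset.mem_image]
    exact ⟨i, hi, rfl⟩
  let f' : FreeGroup ℕ →* K0 :=
    FreeGroup.lift (fun i => if h : i ∈ S then ⟨f (FreeGroup.of i), hmem i h⟩ else 1)
  have hf' : ∀ x ∈ closure ((fun i => (FreeGroup.of i : FreeGroup ℕ)) '' (S : Set ℕ)), ((f' x : K0) : K) = f x := by
    intro x hx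
    induction hx using closure_induction with
    | mem x hx =>
      obtain ⟨i, hi, rfl⟩ := hx
      have hi' : i ∈ S := by exact_mod_cast hi
      simp [f', hi']
    | one => simp
    | mul x y _ _ hx hy => rw [map_mul, map_mul, ← hx, ← hy]; rfl
    | inv x _ hx => rw [map_inv, map_inv, ← hx]; rfl
  have hne' : f' w ≠ 1 := by
    intro h
    apply hne
    rw [← hf' w hS, h]
    rfl
  obtain ⟨r, hr, -, N, hN, hwN, hfin, hpg⟩ :=
    resid (K := K0) ∅ (by simp) 2 Nat.prime_two (by simp) (by simp) (f' w) hne'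
  have := Fact.mk hr
  have hnil' : Group.IsNilpotent (K0 ⧸ N) := hpg.isNilpotent
  obtain ⟨b, hb⟩ := (IsPGroup.iff_card).1 hpg
  have hCP : CP r n (K0 ⧸ N) := by
    refine ⟨hnil', ⟨b, fun g => by rw [← hb]; exact pow_card_eq_one'⟩, ?_⟩
    have h1 : IsEngel n K0 := hE.of_injective K0.subtype K0.subtype_injective n
    exact h1.of_surjective (QuotientGroup.mk' N) (QuotientGroup.mk'_surjective N) n
  have h2 := mem_Rel.1 (hw r hr) _ hCP ((QuotientGroup.mk' N).comp f')
  rw [MonoidHom.comp_apply, mk_eq_one_iff] at h2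
  exact hwN h2

/-- locally nilpotent `n`-Engel groups -/
def LE (n : ℕ) (K : Type) [Group K] : Prop := IsEngel n K ∧ Pool.Agent.Helper28.LCN.LocNilp K

theorem LE_of_CP {q n : ℕ} {K : Type} [Group K] (h : CP q n K) : LE n K :=
  ⟨h.2.2, by
    have := h.1
    intro s
    infer_instance⟩

theorem mem_Rel_LE {n : ℕ} {w : FreeGroup ℕ} :
    w ∈ Rel (LE n) ↔ ∀ q : ℕ, q.Prime → w ∈ Rel (CP q n) := by
  constructor
  · intro h q _
    rw [mem_Rel] at h ⊢
    intro K _ hK f
    exact h K (LE_of_CP hK) f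
  · intro h
    rw [mem_Rel]
    intro K _ hK f
    exact law_of_CP h K hK.1 hK.2 f

/-- **(b)** `p`-torsion in the free locally nilpotent `n`-Engel group, `p < n` -/
theorem torsion_exists {n c : ℕ} (hTF : TFc n c) (p : ℕ) (hp : p.Prime) (hn : p + 1 ≤ n) :
    ∃ g : RF (LE n), IsOfFinOrder g ∧ p ∣ orderOf g := by
  obtain ⟨m, hm, H⟩ := exists_m hTF
  have hn0 : 0 < n := by omega
  have hP : ∀ q : ℕ, ∃ r : ℕ, q.Prime → ∀ (G : Type) [Group G], Group.IsNilpotent G →
      (∃ b : ℕ, ∀ g : G, g ^ q ^ b = 1) → IsEngel n G →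
      (Pw (⊤ : Subgroup G) (q ^ r)).lowerCentralSeries (c + 1) = ⊥ := by
    intro q
    by_cases hq : q.Prime
    · obtain ⟨r, hr⟩ := thmP hn0 hm H q hq
      exact ⟨r, fun _ => hr⟩
    · exact ⟨0, fun h => absurd h hq⟩
  choose r hr using hP
  obtain ⟨w, hw, hwe, hwn⟩ := torsion_word (c := c) (r := r p) hp hn (c + 1) (hr p hp)
  let M := ∏ q ∈ m.primeFactors.erase p, q ^ r q
  have hMp : ¬ p ∣ M := by
    intro h
    obtain ⟨q, hq, hpq⟩ := (Prime.dvd_finsetProd_iff hp.prime _).1 h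
    have h1 := hp.dvd_of_dvd_pow hpq
    rw [Finset.mem_erase, Nat.mem_primeFactors] at hq
    exact hq.1 ((Nat.prime_dvd_prime_iff_eq hp hq.2.1).1 h1).symm
  have hkill : ∀ q : ℕ, q.Prime → q ≠ p → phi M w ∈ Rel (CP q n) := by
    intro q hq hqp
    rw [mem_Rel]
    intro K _ hK f
    by_cases hqm : q ∣ m
    · refine kill_q (q := q) (r := r q) ?_ (hr q hq) hK f hw
      exact Finset.dvd_prod_of_mem _ (by
        rw [Finset.mem_erase, Nat.mem_primeFactors]
        exact ⟨hqp, hq, hqm, hm.ne'⟩)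
    · have h1 := class_of_not_dvd hq hqm H K hK
      have h2 := map_lcs_le (f.comp (phi M)) (c + 1) hw
      have h3 : lcs K (c + 1) ≤ lcs K c := Subgroup.lowerCentralSeries_antitone _ (Nat.le_succ c)
      have h4 := h3 h2
      rw [h1, Subgroup.mem_bot] at h4
      exact h4
  have hpp : (phi M w) ^ p ^ r p ∈ Rel (CP p n) := by
    rw [mem_Rel]
    intro K _ hK f
    have := mem_Rel.1 hwe K hK (f.comp (phi M))
    rw [MonoidHom.comp_apply, map_pow] at this
    exact this
  have h1 : (phi M w) ^ p ^ r p ∈ Rel (LE n) := by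
    rw [mem_Rel_LE]
    intro q hq
    by_cases hqp : q = p
    · subst hqp; exact hpp
    · exact pow_mem (hkill q hq hqp) _
  have h2 : phi M w ∉ Rel (LE n) := by
    rw [mem_Rel_LE]
    intro h
    exact keep_p hp hMp hwn (h p hp)
  refine ⟨QuotientGroup.mk' _ (phi M w), ?_, ?_⟩
  · rw [isOfFinOrder_iff_pow_eq_one]
    refine ⟨p ^ r p, pow_pos hp.pos _, ?_⟩
    rw [← map_pow]
    exact (mk_eq_one_iff _ _).2 h1
  · have h3 : orderOf (QuotientGroup.mk' (Rel (LE n)) (phi M w)) ∣ p ^ r p := by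
      apply orderOf_dvd_of_pow_eq_one
      rw [← map_pow]
      exact (mk_eq_one_iff _ _).2 h1
    obtain ⟨k, hk, hk2⟩ := (Nat.dvd_prime_pow hp).1 h3
    rw [hk2]
    rcases Nat.eq_zero_or_pos k with h0 | h0
    · exfalso
      rw [h0, pow_zero, orderOf_eq_one_iff] at hk2
      exact h2 ((mk_eq_one_iff _ _).1 hk2)
    · exact dvd_pow_self p h0.ne'

end Pool.Agent.H798R2.EP
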