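import Pool.Agent.H798R2.EP.G
import Pool.Agent.Helper28.LCN.LcsComm

/-!
# Only finitely many torsion primes
-/

set_option autoImplicit false

namespace Pool.Agent.H798R2.EP

open Subgroup Pool.Agent.Helper111.EN
open scoped commutatorElement

/-- filtrations of a group -/
structure IsFil {G : Type} [Group G] (Fl : ℕ → Subgroup G) : Prop where
  anti : ∀ k, Fl (k + 1) ≤ Fl k
  comm : ∀ i j, ⁅Fl i, Fl j⁆ ≤ Fl (i + j)

theorem IsFil.anti' {G : Type} [Group G] {Fl : ℕ → Subgroup G} (h : IsFil Fl) {i j : ℕ}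
    (hij : i ≤ j) : Fl j ≤ Fl i := antitone_nat_of_succ_le h.anti hij

theorem IsFil.conj {G : Type} [Group G] {Fl : ℕ → Subgroup G} (h : IsFil Fl) {k : ℕ} {a x : G}
    (ha : a ∈ Fl 0) (hx : x ∈ Fl k) : a * x * a⁻¹ ∈ Fl k := by
  have h1 : ⁅a, x⁆ ∈ Fl (0 + k) := h.comm 0 k (commutator_mem_commutator ha hx)
  rw [zero_add] at h1
  have h2 : a * x * a⁻¹ = ⁅a, x⁆ * x := by rw [commutatorElement_def]; group
  rw [h2]
  exact mul_mem h1 hx

theorem IsFil.conj' {G : Type} [Group G] {Fl : ℕ → Subgroup G} (h : IsFil Fl) {k : ℕ} {a x : G}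
    (ha : a ∈ Fl 0) (hx : x ∈ Fl k) : a⁻¹ * x * a ∈ Fl k := by
  have := h.conj (inv_mem ha) hx
  rwa [inv_inv] at this

/-- the Host-Kra doubling of a filtration -/
def dbl {G : Type} [Group G] {Fl : ℕ → Subgroup G} (h : IsFil Fl) (k : ℕ) : Subgroup (G × G) where
  carrier := {x | x.1 ∈ Fl k ∧ x.1⁻¹ * x.2 ∈ Fl (k + 1)}
  one_mem' := ⟨one_mem _, by simp⟩
  mul_mem' := by
    rintro ⟨a, b⟩ ⟨a', b'⟩ ⟨h1, h2⟩ ⟨h3, h4⟩
    refine ⟨mul_mem h1 h3, ?_⟩
    have h5 : (a * a')⁻¹ * (b * b') = (a'⁻¹ * (a⁻¹ * b) * a') * (a'⁻¹ * b') := by group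
    show (a * a')⁻¹ * (b * b') ∈ _
    rw [h5]
    exact mul_mem (h.conj' (h.anti' (Nat.zero_le _) h3) h2) h4
  inv_mem' := by
    rintro ⟨a, b⟩ ⟨h1, h2⟩
    refine ⟨inv_mem h1, ?_⟩
    have h5 : (a⁻¹)⁻¹ * b⁻¹ = a * (a⁻¹ * b)⁻¹ * a⁻¹ := by group
    show (a⁻¹)⁻¹ * b⁻¹ ∈ _
    rw [h5]
    exact h.conj (h.anti' (Nat.zero_le _) h1) (inv_mem h2)

theorem mem_dbl {G : Type} [Group G] {Fl : ℕ → Subgroup G} (h : IsFil Fl) {k : ℕ} {a b : G} :
    (a, b) ∈ dbl h k ↔ a ∈ Fl k ∧ a⁻¹ * b ∈ Fl (k + 1) := Iff.rfl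

theorem dbl_fil {G : Type} [Group G] {Fl : ℕ → Subgroup G} (h : IsFil Fl) : IsFil (dbl h) where
  anti := by
    rintro k ⟨a, b⟩ ⟨h1, h2⟩
    exact ⟨h.anti _ h1, h.anti _ h2⟩
  comm := by
    intro i j
    rw [commutator_le]
    rintro ⟨a, b⟩ hx ⟨a', b'⟩ hy
    rw [mem_dbl] at hx hy
    obtain ⟨h1, h2⟩ := hx
    obtain ⟨h3, h4⟩ := hy
    obtain ⟨v, hv⟩ : ∃ v, v = a⁻¹ * b := ⟨_, rfl⟩
    obtain ⟨v', hv'⟩ : ∃ v', v' = a'⁻¹ * b' := ⟨_, rfl⟩
    rw [← hv] at h2
    rw [← hv'] at h4
    have hb : b = a * v := by rw [hv]; group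
    have hb' : b' = a' * v' := by rw [hv']; group
    have e1 : (⁅((a, b) : G × G), (a', b')⁆ : G × G) = (⁅a, a'⁆, ⁅b, b'⁆) := rfl
    rw [e1, mem_dbl]
    have hX : ⁅a, a'⁆ ∈ Fl (i + j) := h.comm i j (commutator_mem_commutator h1 h3)
    refine ⟨hX, ?_⟩
    have ha0 : a ∈ Fl 0 := h.anti' (Nat.zero_le _) h1
    have ha0' : a' ∈ Fl 0 := h.anti' (Nat.zero_le _) h3
    have hb'j : a' * v' ∈ Fl j := mul_mem h3 (h.anti _ h4)
    have e2 : ⁅b, b'⁆ = (a * ⁅v, a' * v'⁆ * a⁻¹) * ⁅a, a'⁆ * (a' * ⁅a, v'⁆ * a'⁻¹) := by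
      rw [hb, hb']
      simp only [commutatorElement_def]
      group
    have h5 : ⁅v, a' * v'⁆ ∈ Fl (i + j + 1) := by
      have := h.comm (i + 1) j (commutator_mem_commutator h2 hb'j)
      rwa [show i + 1 + j = i + j + 1 by omega] at this
    have h6 : ⁅a, v'⁆ ∈ Fl (i + j + 1) := by
      have := h.comm i (j + 1) (commutator_mem_commutator h1 h4)
      rwa [show i + (j + 1) = i + j + 1 by omega] at this
    have e3 : ⁅a, a'⁆⁻¹ * ⁅b, b'⁆ = (⁅a, a'⁆⁻¹ * (a * ⁅v, a' * v'⁆ * a⁻¹) * ⁅a, a'⁆) *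
        (a' * ⁅a, v'⁆ * a'⁻¹) := by
      rw [e2]; group
    rw [e3]
    exact mul_mem (h.conj' (h.anti' (Nat.zero_le _) hX) (h.conj ha0 h5)) (h.conj ha0' h6)

/-- the homomorphism sending the variables in `D` to `1` and the others to `g` -/
noncomputable def del {G : Type} [Group G] (D : Set ℕ) (g : ℕ → G) : FreeGroup ℕ →* G :=
  open Classical in FreeGroup.lift (fun i => if i ∈ D then 1 else g i)

theorem del_of {G : Type} [Group G] (D : Set ℕ) (g : ℕ → G) (i : ℕ) :
    open Classical in del D g (FreeGroup.of i) = if i ∈ D then 1 else g i := by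
  simp [del]

/-- **corner property** -/
theorem corner (w : FreeGroup ℕ) (S : Finset ℕ) : ∀ (G : Type) [Group G] (Fl : ℕ → Subgroup G),
    IsFil Fl → ∀ g : ℕ → G, (∀ i ∈ S, g i ∈ Fl 1) → (∀ i, g i ∈ Fl 0) →
    (∀ D : Set ℕ, D ⊆ S → D.Nonempty → del D g w = 1) → del ∅ g w ∈ Fl S.card := by
  classical
  induction S using Finset.induction_on with
  | empty =>
    intro G _ Fl hF g _ hg0 _
    rw [Finset.card_empty]
    exact hom_mem _ _ (fun i => by rw [del_of]; simpa using hg0 i) w
  | insert s S hs ih =>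
    intro G _ Fl hF g hg1 hg0 hD
    rw [Finset.card_insert_of_notMem hs]
    let gt : ℕ → G × G := fun i => if i = s then (1, g s) else (g i, g i)
    have hdel : ∀ D : Set ℕ, D ⊆ S → ∀ v : FreeGroup ℕ,
        del D gt v = (del (insert s D) g v, del D g v) := by
      intro D hDS v
      have hsD : s ∉ D := fun h => hs (hDS h)
      have e : del D gt = (del (insert s D) g).prod (del D g) := by
        ext i
        · rw [del_of]
          show _ = (del (insert s D) g) (FreeGroup.of i)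
          rw [del_of]
          by_cases hi : i = s
          · subst hi
            simp [gt, hsD]
          · by_cases hiD : i ∈ D
            · simp [hiD]
            · simp [gt, hi, hiD]
        · rw [del_of]
          show _ = (del D g) (FreeGroup.of i)
          rw [del_of]
          by_cases hi : i = s
          · subst hi
            simp [gt, hsD]
          · by_cases hiD : i ∈ D
            · simp [hiD]
            · simp [gt, hi, hiD]
      rw [e]
      rfl
    have h1 := ih (G × G) (dbl hF) (dbl_fil hF) gt (by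
        intro i hi
        have his : i ≠ s := fun h => hs (h ▸ hi)
        simp only [gt, his, if_false]
        rw [mem_dbl]
        exact ⟨hg1 i (Finset.mem_insert_of_mem hi), by rw [inv_mul_cancel]; exact one_mem _⟩)
      (by
        intro i
        by_cases his : i = s
        · simp only [gt, his, if_true]
          rw [mem_dbl]
          exact ⟨one_mem _, by
            rw [inv_one, one_mul]; exact hg1 s (Finset.mem_insert_self s S)⟩
        · simp only [gt, his, if_false]
          rw [mem_dbl]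
          exact ⟨hg0 i, by rw [inv_mul_cancel]; exact one_mem _⟩)
      (by
        intro D hDS hDn
        rw [hdel D hDS]
        have h2 := hD (insert s D) (by
          rw [Finset.coe_insert]
          exact Set.insert_subset_insert hDS) (Set.insert_nonempty s D)
        have h3 := hD D (by
          rw [Finset.coe_insert]
          exact hDS.trans (Set.subset_insert _ _)) hDn
        rw [h2, h3]
        rfl)
    rw [hdel ∅ (Set.empty_subset _), mem_dbl] at h1
    have h2 := hD (insert s ∅) (by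
      rw [Finset.coe_insert]
      exact Set.insert_subset_insert (Set.empty_subset _)) (Set.insert_nonempty s ∅)
    have h3 := h1.2
    rw [h2, inv_one, one_mul] at h3
    exact h3

/-- the lower central filtration -/
theorem fil_lcs (G : Type) [Group G] : IsFil (fun k => lcs G (k - 1)) where
  anti := fun k => Subgroup.lowerCentralSeries_antitone _ (by omega)
  comm := by
    intro i j
    rcases Nat.eq_zero_or_pos i with hi | hi
    · subst hi
      rw [zero_add]
      have hn : (lcs G (j - 1)).Normal := inferInstance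
      rw [commutator_le]
      intro a _ b hb
      rw [commutatorElement_def]
      exact mul_mem (hn.conj_mem b hb a) (inv_mem hb)
    · rcases Nat.eq_zero_or_pos j with hj | hj
      · subst hj
        rw [add_zero]
        have hn : (lcs G (i - 1)).Normal := inferInstance
        rw [commutator_le]
        intro a ha b _
        have : ⁅a, b⁆ = a * (b * a⁻¹ * b⁻¹) := by rw [commutatorElement_def]; group
        rw [this]
        exact mul_mem ha (hn.conj_mem _ (inv_mem ha) b)
      · have := Pool.Agent.Helper28.LCN.lcs_comm_top (H := G) (j - 1) (i - 1)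
        rwa [show i - 1 + (j - 1) + 1 = i + j - 1 by omega] at this

/-- `n`-Engel groups of class at most `c` -/
def Vc (n c : ℕ) (K : Type) [Group K] : Prop := IsEngel n K ∧ lcs K c = ⊥

/-- keep the variables in `S`, kill the others -/
noncomputable def keep (S : Finset ℕ) : FreeGroup ℕ →* FreeGroup ℕ :=
  open Classical in FreeGroup.lift (fun i => if i ∈ S then FreeGroup.of i else 1)

theorem keep_of (S : Finset ℕ) (i : ℕ) :
    open Classical in keep S (FreeGroup.of i) = if i ∈ S then FreeGroup.of i else 1 := by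
  simp [keep]

theorem keep_eq {S : Finset ℕ} {w : FreeGroup ℕ}
    (hw : w ∈ closure ((fun i => (FreeGroup.of i : FreeGroup ℕ)) '' (S : Set ℕ))) : keep S w = w := by
  induction hw using closure_induction with
  | mem x hx =>
    obtain ⟨i, hi, rfl⟩ := hx
    have hi' : i ∈ S := by exact_mod_cast hi
    show keep S (FreeGroup.of i) = _
    rw [keep_of, if_pos hi']
  | one => rw [map_one]
  | mul x y _ _ hx hy => rw [map_mul, hx, hy]
  | inv x _ hx => rw [map_inv, hx]

theorem keep_mem (S : Finset ℕ) (w : FreeGroup ℕ) :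
    keep S w ∈ closure ((fun i => (FreeGroup.of i : FreeGroup ℕ)) '' (S : Set ℕ)) := by
  apply hom_mem
  intro i
  rw [keep_of]
  split_ifs with h
  · exact Subgroup.subset_closure ⟨i, by exact_mod_cast h, rfl⟩
  · exact one_mem _

/-- a non-law of class-`c` groups remains a non-law after killing all but at most `c` variables -/
theorem few_variables {n c : ℕ} {w : FreeGroup ℕ} (hw : w ∉ Rel (Vc n c)) :
    ∃ S : Finset ℕ, S.card ≤ c ∧ keep S w ∉ Rel (Vc n c) := by
  classical
  obtain ⟨S0, hS0⟩ := finite_support w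
  have hex : ∃ k : ℕ, ∃ S : Finset ℕ, S.card = k ∧ keep S w ∉ Rel (Vc n c) :=
    ⟨S0.card, S0, rfl, by rw [keep_eq hS0]; exact hw⟩
  obtain ⟨S, hSc, hS⟩ := Nat.find_spec hex
  have hmin : ∀ T : Finset ℕ, T.card < S.card → keep T w ∈ Rel (Vc n c) := by
    intro T hT
    by_contra hcon
    exact Nat.find_min hex (by rw [hSc] at hT; exact hT) ⟨T, rfl, hcon⟩
  refine ⟨S, ?_, hS⟩
  by_contra hcard
  apply hS
  rw [mem_Rel]
  intro K _ hK f
  let g : ℕ → K := fun i => if i ∈ S then f (FreeGroup.of i) else 1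
  have hdel : ∀ D : Set ℕ, ∀ v, del D g v = f (keep (S.filter (fun i => i ∉ D)) v) := by
    intro D v
    have e : del D g = f.comp (keep (S.filter (fun i => i ∉ D))) := by
      ext i
      rw [del_of, MonoidHom.comp_apply, keep_of]
      by_cases hiD : i ∈ D
      · simp [hiD]
      · by_cases hiS : i ∈ S
        · simp [g, hiD, hiS]
        · simp [g, hiD, hiS]
    rw [e]; rfl
  have h1 := corner w S K _ (fil_lcs K) g (fun i _ => mem_top _) (fun i => mem_top _) (by
    intro D hDS hDn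
    rw [hdel]
    have h2 : (S.filter (fun i => i ∉ D)).card < S.card := by
      apply Finset.card_lt_card
      rw [Finset.filter_ssubset]
      obtain ⟨d, hd⟩ := hDn
      exact ⟨d, hDS hd, by simpa using hd⟩
    exact mem_Rel.1 (hmin _ h2) K hK f)
  have h3 : del ∅ g w = f (keep S w) := by
    rw [hdel]
    congr 2
    ext i
    simp
  rw [h3] at h1
  have h4 : lcs K (S.card - 1) ≤ lcs K c := Subgroup.lowerCentralSeries_antitone _ (by omega)
  have h5 := h4 h1
  rw [hK.2, Subgroup.mem_bot] at h5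
  exact h5

theorem tor_finite (H : Type) [Group H] [Group.IsNilpotent H] [hf : Group.FG H] :
    ∃ T : Subgroup H, (T : Set H).Finite ∧ ∀ x : H, (∃ n : ℕ, 0 < n ∧ x ^ n = 1) → x ∈ T := by
  have hl : Pool.Agent.Helper28.LCN.LocNilp H := fun s => inferInstance
  refine ⟨Pool.Agent.Helper28.LCN.tor hl, ?_, fun x hx => hx⟩
  set T := Pool.Agent.Helper28.LCN.tor hl with hT
  have h1 := Pool.Agent.Helper111.EN.NSc.NS_of_nilpotent_fg (⊤ : Subgroup H)
    (Group.isNilpotent_top.2 inferInstance) hf.out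
  have hTfg : T.FG := h1 T le_top
  have : Group.FG T := (Group.fg_iff_subgroup_fg _).2 hTfg
  have hfin : Finite T := by
    apply Pool.Agent.Helper111.EN.finite_of_fg_nilpotent
    rintro ⟨g, n, hn, hg⟩
    rw [isOfFinOrder_iff_pow_eq_one]
    exact ⟨n, hn, Subtype.ext hg⟩
  exact Set.toFinite _

/-- bound for the torsion primes of relatively free groups of class `c` -/
theorem torsion_bound (n c : ℕ) : ∃ B : ℕ, ∀ p : ℕ, p.Prime → B < p → ∀ w : FreeGroup ℕ,
    w ^ p ∈ Rel (Vc n c) → w ∈ Rel (Vc n c) := by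
  classical
  let E := RF (Vc n c)
  let π := QuotientGroup.mk' (Rel (Vc n c))
  have hnilE : lcs E c = ⊥ := by
    rw [← law_iff]
    intro f
    apply RF_eq_one
    intro K _ hK φ
    rw [IC_map]
    exact (law_iff c).2 hK.2 _
  have hnil0 : Group.IsNilpotent E := Subgroup.nilpotent_iff_lowerCentralSeries.2 ⟨c, hnilE⟩
  let H : Subgroup E := closure (((Finset.range c).image (fun i => π (FreeGroup.of i)) : Finset E) : Set E)
  have hfg : Group.FG H := (Group.fg_iff_subgroup_fg _).2 ⟨_, rfl⟩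
  obtain ⟨T, hTfin, hT⟩ := tor_finite H
  have := hTfin.to_subtype
  refine ⟨Nat.card T, ?_⟩
  intro p hp hB w hwp
  by_contra hw
  obtain ⟨S, hSc, hS⟩ := few_variables hw
  -- rename the variables
  obtain ⟨σ, hσinj, hσ⟩ : ∃ σ : ℕ → ℕ, Set.InjOn σ S ∧ ∀ i ∈ S, σ i < c := by
    have h1 : Nonempty (S ↪ Fin c) := by
      rw [Function.Embedding.nonempty_iff_card_le]
      simpa using hSc
    obtain ⟨e⟩ := h1
    refine ⟨fun i => if h : i ∈ S then (e ⟨i, h⟩ : ℕ) else 0, ?_, ?_⟩
    · intro i hi j hj hij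
      have hi' : i ∈ S := by exact_mod_cast hi
      have hj' : j ∈ S := by exact_mod_cast hj
      simp only [hi', hj', dif_pos] at hij
      have := e.injective (Fin.ext hij)
      exact congrArg Subtype.val this
    · intro i hi
      simp only [hi, dif_pos]
      exact (e ⟨i, hi⟩).2
  let ρ : FreeGroup ℕ →* FreeGroup ℕ := FreeGroup.lift (fun i => if i ∈ S then FreeGroup.of (σ i) else 1)
  let ρ' : FreeGroup ℕ →* FreeGroup ℕ :=
    FreeGroup.lift (fun j => if h : ∃ i ∈ S, σ i = j then FreeGroup.of h.choose else 1)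
  have hρρ : ∀ v ∈ closure ((fun i => (FreeGroup.of i : FreeGroup ℕ)) '' (S : Set ℕ)), ρ' (ρ v) = v := by
    intro v hv
    induction hv using closure_induction with
    | mem x hx =>
      obtain ⟨i, hi, rfl⟩ := hx
      have hi' : i ∈ S := by exact_mod_cast hi
      have hex : ∃ i' ∈ S, σ i' = σ i := ⟨i, hi', rfl⟩
      have h1 : hex.choose = i := hσinj (by exact_mod_cast hex.choose_spec.1) hi hex.choose_spec.2
      show ρ' (ρ (FreeGroup.of i)) = _
      have h2 : ρ (FreeGroup.of i) = FreeGroup.of (σ i) := by simp [ρ, hi']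
      rw [h2]
      have h3 : ρ' (FreeGroup.of (σ i)) = FreeGroup.of hex.choose := by
        simp only [ρ', FreeGroup.lift_apply_of]
        rw [dif_pos hex]
      rw [h3, h1]
    | one => simp
    | mul x y _ _ hx hy => rw [map_mul, map_mul, hx, hy]
    | inv x _ hx => rw [map_inv, map_inv, hx]
  have hfull : ∀ (θ : FreeGroup ℕ →* FreeGroup ℕ) (v : FreeGroup ℕ), v ∈ Rel (Vc n c) → θ v ∈ Rel (Vc n c) := by
    intro θ v hv
    rw [mem_Rel] at hv ⊢
    intro K _ hK f
    exact hv K hK (f.comp θ)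
  set u := keep S w with hu
  have hup : u ^ p ∈ Rel (Vc n c) := by
    rw [hu, ← map_pow]
    exact hfull _ _ hwp
  have h1 : ρ u ∉ Rel (Vc n c) := by
    intro h
    apply hS
    rw [← hρρ u (keep_mem S w)]
    exact hfull ρ' _ h
  have h2 : (ρ u) ^ p ∈ Rel (Vc n c) := by
    rw [← map_pow]
    exact hfull ρ _ hup
  have h3 : ∀ v, π (ρ v) ∈ H := by
    intro v
    have := hom_mem (π.comp ρ) H (by
      intro i
      rw [MonoidHom.comp_apply]
      by_cases hi : i ∈ S
      · have h2 : ρ (FreeGroup.of i) = FreeGroup.of (σ i) := by simp [ρ, hi]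
        rw [h2]
        apply Subgroup.subset_closure
        rw [Finset.mem_coe, Finset.mem_image]
        exact ⟨σ i, Finset.mem_range.2 (hσ i hi), rfl⟩
      · have h2 : ρ (FreeGroup.of i) = 1 := by simp [ρ, hi]
        rw [h2, map_one]
        exact one_mem _) v
    exact this
  let x : H := ⟨π (ρ u), h3 u⟩
  have hx1 : x ≠ 1 := by
    intro h
    apply h1
    exact (mk_eq_one_iff _ _).1 (congrArg Subtype.val h)
  have hxp : x ^ p = 1 := by
    apply Subtype.ext
    show (π (ρ u)) ^ p = 1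
    rw [← map_pow]
    exact (mk_eq_one_iff _ _).2 h2
  have hfact := Fact.mk hp
  have hord : orderOf x = p := orderOf_eq_prime hxp hx1
  have hxT : x ∈ T := hT x ⟨p, hp.pos, hxp⟩
  have h4 : orderOf (⟨x, hxT⟩ : T) = p := by
    rw [← hord, ← Subgroup.orderOf_coe]
  have h5 : orderOf (⟨x, hxT⟩ : T) ∣ Nat.card T := orderOf_dvd_natCard _
  rw [h4] at h5
  have h6 := Nat.le_of_dvd Nat.card_pos h5
  omega

/-- **(a)** some prime is not a torsion prime -/
theorem exists_no_torsion {n c : ℕ} (hTF : TFc n c) :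
    ∃ p : ℕ, p.Prime ∧ ∀ g : RF (LE n), IsOfFinOrder g → ¬ p ∣ orderOf g := by
  obtain ⟨m, hm, H⟩ := exists_m hTF
  obtain ⟨B, hB⟩ := torsion_bound n c
  obtain ⟨p, hpB, hp⟩ := Nat.exists_infinite_primes (max (B + 1) (m + 1))
  refine ⟨p, hp, ?_⟩
  have hpm : ¬ p ∣ m := by
    intro h
    have := Nat.le_of_dvd hm h
    omega
  intro g hg hdvd
  have hfact := Fact.mk hp
  have hpos := hg.orderOf_pos
  have hh : orderOf (g ^ (orderOf g / p)) = p := orderOf_pow_orderOf_div hpos.ne' hdvd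
  obtain ⟨w, hw⟩ := QuotientGroup.mk'_surjective (Rel (LE n)) (g ^ (orderOf g / p))
  have hwp : w ^ p ∈ Rel (LE n) := by
    apply (mk_eq_one_iff (Rel (LE n)) (w ^ p)).1
    have h1 := pow_orderOf_eq_one (g ^ (orderOf g / p))
    rw [hh, ← hw, ← map_pow] at h1
    exact h1
  have hwn : w ∉ Rel (LE n) := by
    intro h
    have h1 : QuotientGroup.mk' (Rel (LE n)) w = 1 := (mk_eq_one_iff (Rel (LE n)) w).2 h
    rw [hw] at h1
    rw [h1, orderOf_one] at hh
    exact hp.one_lt.ne hh
  rw [mem_Rel_LE] at hwn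
  push Not at hwn
  obtain ⟨q, hq, hwq⟩ := hwn
  rw [mem_Rel] at hwq
  push Not at hwq
  obtain ⟨K, _, hK, f, hf⟩ := hwq
  have hfp : (f w) ^ p = 1 := by
    rw [← map_pow]
    exact mem_Rel.1 hwp K (LE_of_CP hK) f
  have hqp : q = p := by
    by_contra hne
    obtain ⟨b, hb⟩ := hK.2.1
    have h1 : orderOf (f w) ∣ p := orderOf_dvd_of_pow_eq_one hfp
    have h2 : orderOf (f w) ∣ q ^ b := orderOf_dvd_of_pow_eq_one (hb _)
    have h3 : Nat.Coprime p (q ^ b) := Nat.Coprime.pow_right _ ((Nat.coprime_primes hp hq).2 (Ne.symm hne))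
    have h4 : orderOf (f w) ∣ 1 := by
      rw [← h3]
      exact Nat.dvd_gcd h1 h2
    apply hf
    exact orderOf_eq_one_iff.1 (Nat.dvd_one.1 h4)
  subst hqp
  have hKc := class_of_not_dvd hq hpm H K hK
  have hV : w ∉ Rel (Vc n c) := by
    intro h
    exact hf (mem_Rel.1 h K ⟨hK.2.2, hKc⟩ f)
  apply hV
  refine hB q hq (by omega) w ?_
  rw [mem_Rel]
  intro K' _ hK' f'
  refine mem_Rel.1 hwp K' ⟨hK'.1, ?_⟩ f'
  have hnil : Group.IsNilpotent K' := Subgroup.nilpotent_iff_lowerCentralSeries.2 ⟨c, hK'.2⟩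
  intro s
  infer_instance

end Pool.Agent.H798R2.EP
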