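import Pool.Agent.H798R2.EP.G
import Pool.Agent.H798R2.EP.H
import Pool.Agent.Helper277.ZG.All
import Pool.Agent.Helper351.LE.T1

/-!
# Torsion primes of the free locally nilpotent `n`-Engel groups do not stabilise
-/

set_option autoImplicit false

namespace Pool.Agent.H798R2.EP

open Subgroup Pool.Agent.Helper111.EN
open scoped commutatorElement

theorem eng_iter {G : Type} [Group G] (n : ℕ) (x y : G) :
    (fun z : G => z⁻¹ * y⁻¹ * z * y)^[n] x = eng n x y := by
  induction n with
  | zero => rfl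
  | succ n ih =>
    rw [Function.iterate_succ_apply', ih]
    rfl

/-- torsion-free locally nilpotent `n`-Engel groups have bounded class -/
theorem tfc_exists (n : ℕ) : ∃ c : ℕ, TFc n c := by
  obtain ⟨c, hc⟩ := Pool.Agent.Helper277.ZG.H94.ZelGroup.class_glob Pool.Agent.Helper277.zelLie n
  refine ⟨c, ?_⟩
  intro G _ hE hl htf
  refine Subgroup.lowerCentralSeries_eq_bot_iff_upperCentralSeries_eq_top.2 ?_
  apply hc G
  · intro x y
    rw [eng_iter]
    exact hE x y
  · intro K hK hK0
    obtain ⟨s, hs⟩ := hK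
    have hnil : Group.IsNilpotent K := by
      have := hl s
      rw [hs] at this
      exact this
    have hfg : Group.FG K := (Group.fg_iff_subgroup_fg _).2 ⟨s, hs⟩
    obtain ⟨x, hx, hx1⟩ : ∃ x ∈ K, x ≠ 1 := by
      by_contra hcon
      push Not at hcon
      apply hK0
      rw [eq_bot_iff]
      intro x hx
      exact Subgroup.mem_bot.2 (hcon x hx)
    apply Pool.Agent.Helper351.LE.surj_of_nontorsion K hfg ⟨x, hx⟩
    intro m hm h
    apply hx1
    exact htf x m hm (congrArg Subtype.val h)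

/-- the frozen form of the laws -/
theorem Rel_LE_eq (n : ℕ) :
    sInf {M : Subgroup (FreeGroup ℕ) | ∃ (K : Type) (_ : Group K) (f : FreeGroup ℕ →* K),
              f.ker = M ∧
              (∀ x y : K, (fun z : K => z⁻¹ * x⁻¹ * z * x)^[n] y = 1) ∧
              ∀ s : Finset K, Group.IsNilpotent (Subgroup.closure (s : Set K))} = Rel (LE n) := by
  have h : {M : Subgroup (FreeGroup ℕ) | ∃ (K : Type) (_ : Group K) (f : FreeGroup ℕ →* K),
              f.ker = M ∧
              (∀ x y : K, (fun z : K => z⁻¹ * x⁻¹ * z * x)^[n] y = 1) ∧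
              ∀ s : Finset K, Group.IsNilpotent (Subgroup.closure (s : Set K))} =
      {M : Subgroup (FreeGroup ℕ) | ∃ (K : Type) (_ : Group K) (f : FreeGroup ℕ →* K),
    f.ker = M ∧ LE n K} := by
    ext M
    constructor
    · rintro ⟨K, _, f, hf, hE, hl⟩
      exact ⟨K, _, f, hf, fun x y => by rw [← eng_iter]; exact hE y x, hl⟩
    · rintro ⟨K, _, f, hf, hE, hl⟩
      exact ⟨K, _, f, hf, fun x y => by rw [eng_iter]; exact hE y x, hl⟩
  rw [h]
  rfl

/-- the torsion primes of the free locally nilpotent `n`-Engel group -/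
def TP (n p : ℕ) : Prop := ∃ g : RF (LE n), IsOfFinOrder g ∧ p ∣ orderOf g

theorem not_stable : ¬ ∃ N : ℕ, ∀ n : ℕ, N ≤ n → ∀ p : ℕ, p.Prime → (TP n p ↔ TP (n + 1) p) := by
  rintro ⟨N, hN⟩
  obtain ⟨c, hc⟩ := tfc_exists N
  obtain ⟨p, hp, hno⟩ := exists_no_torsion hc
  have h1 : ∀ k, TP N p ↔ TP (N + k) p := by
    intro k
    induction k with
    | zero => exact Iff.rfl
    | succ k ih => exact ih.trans (hN (N + k) (by omega) p hp)
  obtain ⟨c', hc'⟩ := tfc_exists (N + (p + 1))
  have h2 : TP (N + (p + 1)) p := torsion_exists hc' p hp (by omega)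
  obtain ⟨g, hg, hpg⟩ := (h1 (p + 1)).2 h2
  exact hno g hg hpg

end Pool.Agent.H798R2.EP
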